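import Pool.Agent.H446.AP5.Lead
import Pool.Agent.H446.AP4.PInt

/-!
# Divisibility of interpolation determinants
-/

set_option autoImplicit false

namespace Pool.Agent.H446.AP5

open Finset Module Pool.Agent.H446.AP4

/-- The elements that are integral at `p`. -/
def PI (p : ℕ) {K : Type*} [Field K] (y : K) : Prop := ∃ s : ℤ, ¬ (p : ℤ) ∣ s ∧ IsIntegral ℤ ((s : K) * y)

lemma PI.map {p : ℕ} [Fact p.Prime] {K : Type*} [Field K] {y : K} (h : PI p y) (φ : K →+* ℂ) : φ y ∈ pInt p := by
  obtain ⟨s, hs, hi⟩ := h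
  refine ⟨s, hs, ?_⟩
  have h1 := hi.map (φ.toIntAlgHom)
  have h2 : φ.toIntAlgHom ((s : K) * y) = (s : ℂ) * φ y := by
    show φ ((s : K) * y) = _
    rw [map_mul, map_intCast]
  rwa [h2] at h1

section det

variable {N : ℕ} {K : Type*} [Field K] [Algebra ℚ K]

/-- The determinant of the conjugates. -/
noncomputable def Dt (e : Fin N → K →ₐ[ℚ] ℂ) (v : Fin N → K) : ℂ := Matrix.det (Matrix.of fun i s => e s (v i))

lemma Dt_update (e : Fin N → K →ₐ[ℚ] ℂ) (v : Fin N → K) (i : Fin N) (y : K) :
    Dt e (Function.update v i y) = Matrix.det (Matrix.updateRow (Matrix.of fun i s => e s (v i)) i fun s => e s y) := by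
  unfold Dt
  congr 1
  ext k s
  by_cases h : k = i
  · subst h
    simp
  · rw [Matrix.updateRow_ne h, Matrix.of_apply, Matrix.of_apply, Function.update_of_ne h]

lemma Dt_mem {J : AddSubgroup ℂ} {S : Set K} {e : Fin N → K →ₐ[ℚ] ℂ}
    (h : ∀ v : Fin N → K, (∀ i, v i ∈ S) → Dt e v ∈ J) (t : Finset (Fin N)) : ∀ v : Fin N → K, (∀ i ∉ t, v i ∈ S) →
      (∀ i, v i ∈ Submodule.span ℤ S) → Dt e v ∈ J := by
  induction t using Finset.induction_on with
  | empty => exact fun v hv _ => h v fun i => hv i (notMem_empty i)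
  | insert i₀ t hi₀ ih =>
    intro v hv hv'
    have key : ∀ y ∈ Submodule.span ℤ S, Dt e (Function.update v i₀ y) ∈ J := by
      intro y hy
      induction hy using Submodule.span_induction with
      | mem y hy =>
        refine ih _ (fun i hi => ?_) fun i => ?_
        · by_cases h1 : i = i₀
          · subst h1
            rwa [Function.update_self]
          · rw [Function.update_of_ne h1]
            exact hv i fun h2 => (mem_insert.1 h2).elim h1 hi
        · by_cases h1 : i = i₀
          · subst h1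
            rw [Function.update_self]
            exact Submodule.subset_span hy
          · rw [Function.update_of_ne h1]
            exact hv' i
      | zero =>
        rw [Dt_update]
        have h1 : (fun s => e s (0 : K)) = (0 : Fin N → ℂ) := by
          funext s
          exact map_zero _
        rw [h1, Matrix.det_eq_zero_of_row_eq_zero i₀ fun j => by rw [Matrix.updateRow_self]; rfl]
        exact J.zero_mem
      | add y z _ _ hy hz =>
        rw [Dt_update] at hy hz ⊢
        have h1 : (fun s => e s (y + z)) = (fun s => e s y) + fun s => e s z := by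
          funext s
          exact map_add _ _ _
        rw [h1, Matrix.det_updateRow_add]
        exact J.add_mem hy hz
      | smul c y _ hy =>
        rw [Dt_update] at hy ⊢
        have h1 : (fun s => e s (c • y)) = (c : ℂ) • fun s => e s y := by
          funext s
          rw [Pi.smul_apply, map_zsmul, zsmul_eq_mul, smul_eq_mul]
        rw [h1, Matrix.det_updateRow_smul, ← zsmul_eq_mul]
        exact J.zsmul_mem hy c
    have h1 := key _ (hv' i₀)
    rwa [Function.update_eq_self] at h1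

end det

variable {σ : Type*} [Fintype σ] {K : Type*} [Field K] [Algebra ℚ K]

/-- For each variable there is a polynomial with leading form `X i ^ q` whose value is divisible by `p`. -/
def TestM (d : σ → ℕ) (p q : ℕ) (x : σ → K) : Prop := (∀ i, PI p (x i)) ∧ ∃ F : σ → MvPolynomial σ ℤ,
  (∀ i, Lead d (q * d i) (F i) (MvPolynomial.X i ^ q)) ∧ ∀ i, ∃ y, PI p y ∧ MvPolynomial.aeval x (F i) = p * y

lemma aeval_mem_W {d : σ → ℕ} {w : ℕ} {f : MvPolynomial σ ℤ} (hf : LeW d w f) (x : σ → K) :
    MvPolynomial.aeval x f ∈ W d x w := by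
  have h1 : MvPolynomial.aeval x f = ∑ a ∈ f.support, algebraMap ℤ K (f.coeff a) * mon x a := by
    conv_lhs => rw [f.as_sum]
    rw [map_sum]
    exact Finset.sum_congr rfl fun a _ => aeval_monomial_eq x a _
  rw [h1]
  refine Submodule.sum_mem _ fun a ha => ?_
  have h2 : algebraMap ℤ K (f.coeff a) * mon x a = ((f.coeff a : ℤ) : ℚ) • mon x a := by
    rw [Algebra.smul_def, map_intCast, eq_intCast]
  rw [h2]
  exact Submodule.smul_mem _ _ (Submodule.subset_span ⟨a, hf a (by rwa [MvPolynomial.mem_support_iff] at ha), rfl⟩)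

/-- The exponent of `p`. -/
def kk (q : ℕ) (b : σ →₀ ℕ) : ℕ := ∑ i, b i / q

lemma kk_ge {d : σ → ℕ} {n : ℕ} (hn : 0 < n) (hd : ∀ i, d i ≤ n) {q : ℕ} (hq : 0 < q) (b : σ →₀ ℕ) :
    (wt d b : ℝ) / (n * q) - Fintype.card σ ≤ kk q b := by
  have hq' : (0 : ℝ) < q := by exact_mod_cast hq
  have hn' : (0 : ℝ) < n := by exact_mod_cast hn
  unfold wt kk
  push_cast
  have h1 : ∑ i, ((b i : ℝ) * d i) / (n * q) ≤ ∑ i : σ, (((b i / q : ℕ) : ℝ) + 1) := by
    refine Finset.sum_le_sum fun i _ => ?_
    have h2 : b i < q * (b i / q + 1) := Nat.lt_mul_div_succ _ hq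
    have h3 : ((b i : ℕ) : ℝ) ≤ q * (((b i / q : ℕ) : ℝ) + 1) := by
      have : ((b i : ℕ) : ℝ) ≤ ((q * (b i / q + 1) : ℕ) : ℝ) := Nat.cast_le.2 h2.le
      push_cast at this
      exact this
    have h4 : (d i : ℝ) ≤ n := by exact_mod_cast hd i
    rw [div_le_iff₀ (by positivity)]
    calc ((b i : ℕ) : ℝ) * d i ≤ (q * (((b i / q : ℕ) : ℝ) + 1)) * n := by gcongr
      _ = _ := by ring
  rw [Finset.sum_add_distrib, Finset.sum_const, card_univ, nsmul_eq_mul, mul_one, ← Finset.sum_div] at h1
  linarith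

lemma sum_wt_ge [FiniteDimensional ℚ K] {d : σ → ℕ} {x : σ → K} {φ : Fin (finrank ℚ K) → σ →₀ ℕ}
    {v : Fin (finrank ℚ K) → K} (hv : ∀ i, v i ∈ W d x (wt d (φ i))) (hli : LinearIndependent ℚ v) :
    ∑ j ∈ range (dg d x), (finrank ℚ K - finrank ℚ (W d x j)) ≤ ∑ i, wt d (φ i) := by
  classical
  have h1 : ∀ j, (univ.filter fun i => wt d (φ i) ≤ j).card ≤ finrank ℚ (W d x j) := by
    intro j
    have h2 : LinearIndependent ℚ fun i : {i // wt d (φ i) ≤ j} => (⟨v i, W_mono d x i.2 (hv i)⟩ : W d x j) := by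
      refine LinearIndependent.of_comp (W d x j).subtype ?_
      exact hli.comp _ Subtype.val_injective
    have h3 := h2.fintype_card_le_finrank
    rwa [Fintype.card_subtype] at h3
  have h2 : ∀ j, finrank ℚ K - finrank ℚ (W d x j) ≤ (univ.filter fun i => j < wt d (φ i)).card := by
    intro j
    have h3 := Finset.card_filter_add_card_filter_not (s := (univ : Finset (Fin (finrank ℚ K))))
      (fun i => wt d (φ i) ≤ j)
    simp only [not_le, card_univ, Fintype.card_fin] at h3
    have := h1 j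
    omega
  calc _ ≤ ∑ j ∈ range (dg d x), (univ.filter fun i => j < wt d (φ i)).card := Finset.sum_le_sum fun j _ => h2 j
    _ = ∑ j ∈ range (dg d x), ∑ i, if j < wt d (φ i) then 1 else 0 := by
        refine Finset.sum_congr rfl fun j _ => ?_
        rw [Finset.card_filter]
    _ = ∑ i, ∑ j ∈ range (dg d x), if j < wt d (φ i) then 1 else 0 := Finset.sum_comm
    _ ≤ _ := by
        refine Finset.sum_le_sum fun i _ => ?_
        rw [← Finset.card_filter]
        calc _ ≤ (range (wt d (φ i))).card := by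
              refine Finset.card_le_card fun j hj => ?_
              rw [mem_filter] at hj
              exact mem_range.2 hj.2
          _ = _ := card_range _

/-- **The key lemma.** -/
theorem det_mem [FiniteDimensional ℚ K] {d : σ → ℕ} {n : ℕ} (hn : 0 < n) (hd : ∀ i, d i ≤ n) {p : ℕ}
    [hp : Fact p.Prime] {q : ℕ} (hq : 0 < q) {x : σ → K} (hT : TestM d p q x)
    (e : Fin (finrank ℚ K) → K →ₐ[ℚ] ℂ) (a : Fin (finrank ℚ K) → σ →₀ ℕ) :
    ∃ k : ℕ, ((∑ j ∈ range (dg d x), (finrank ℚ K - finrank ℚ (W d x j)) : ℕ) : ℝ) / (n * q) -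
      Fintype.card σ * finrank ℚ K ≤ k ∧ ∃ z ∈ pInt p, Dt e (fun i => mon x (a i)) = (p : ℂ) ^ k * z := by
  classical
  obtain ⟨hx, F, hF, hFx⟩ := hT
  choose y hy hFy using hFx
  set T := ∑ j ∈ range (dg d x), (finrank ℚ K - finrank ℚ (W d x j)) with hTdef
  set k := ⌈(T : ℝ) / (n * q) - Fintype.card σ * finrank ℚ K⌉₊ with hk
  refine ⟨k, Nat.le_ceil _, ?_⟩
  let J : AddSubgroup ℂ := (pInt p).toAddSubgroup.map (AddMonoidHom.mulLeft ((p : ℂ) ^ k))
  have hJ : ∀ w : ℂ, w ∈ J ↔ ∃ z ∈ pInt p, w = (p : ℂ) ^ k * z := by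
    intro w
    constructor
    · rintro ⟨z, hz, rfl⟩
      exact ⟨z, hz, rfl⟩
    · rintro ⟨z, hz, rfl⟩
      exact ⟨z, hz, rfl⟩
  rw [← hJ]
  let S : Set K := {g | ∃ b, g = MvPolynomial.aeval x (GG F q b)}
  have hS : ∀ v : Fin (finrank ℚ K) → K, (∀ i, v i ∈ S) → Dt e v ∈ J := by
    intro v hv
    choose φ hφ using hv
    by_cases h0 : Dt e v = 0
    · rw [h0]
      exact J.zero_mem
    have hli : LinearIndependent ℚ v := by
      have h1 := Matrix.linearIndependent_rows_of_det_ne_zero h0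
      have h2 : LinearIndependent ℚ (Matrix.of fun (i s : Fin (finrank ℚ K)) => e s (v i)).row :=
        LinearIndependent.restrict_scalars (R := ℚ) (by
          intro a b hab
          have h3 : ((a : ℚ) : ℂ) = b := by
            simpa [Algebra.smul_def] using hab
          exact_mod_cast h3) h1
      let f : K →ₗ[ℚ] (Fin (finrank ℚ K) → ℂ) := LinearMap.pi fun s => (e s).toLinearMap
      refine LinearIndependent.of_comp f ?_
      exact h2
    have hW : ∀ i, v i ∈ W d x (wt d (φ i)) := fun i => by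
      rw [hφ i]
      exact aeval_mem_W (lead_GG hF (φ i)).leW x
    have hsum := sum_wt_ge hW hli
    rw [← hTdef] at hsum
    have hval : ∀ i s, ∃ z ∈ pInt p, e s (v i) = (p : ℂ) ^ kk q (φ i) * z := by
      intro i s
      refine ⟨∏ j, (e s (y j) ^ (φ i j / q) * e s (x j) ^ (φ i j % q)), ?_, ?_⟩
      · exact (pInt p).prod_mem fun j _ => (pInt p).mul_mem ((pInt p).pow_mem ((hy j).map (e s).toRingHom) _)
          ((pInt p).pow_mem ((hx j).map (e s).toRingHom) _)
      · rw [hφ i]
        unfold GG kk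
        rw [map_prod, map_prod, ← Finset.prod_pow_eq_pow_sum, ← Finset.prod_mul_distrib]
        refine Finset.prod_congr rfl fun j _ => ?_
        rw [map_mul, map_pow, map_pow, MvPolynomial.aeval_X, hFy j, map_mul, map_pow, map_pow, map_mul, map_natCast,
          mul_pow]
        ring
    choose z hz hvz using hval
    have hdet : Dt e v = (∏ i, (p : ℂ) ^ kk q (φ i)) * Matrix.det (Matrix.of z) := by
      rw [← Matrix.det_mul_column]
      unfold Dt
      congr 1
      ext i s
      rw [Matrix.of_apply, Matrix.of_apply, Matrix.of_apply, hvz i s]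
    have hkle : k ≤ ∑ i, kk q (φ i) := by
      rw [hk, Nat.ceil_le]
      push_cast
      have h1 : ∑ i, ((wt d (φ i) : ℝ) / (n * q) - Fintype.card σ) ≤ ∑ i, (kk q (φ i) : ℝ) :=
        Finset.sum_le_sum fun i _ => kk_ge hn hd hq (φ i)
      rw [Finset.sum_sub_distrib, ← Finset.sum_div, Finset.sum_const, card_univ, Fintype.card_fin, nsmul_eq_mul] at h1
      have h2 : (T : ℝ) ≤ ∑ i, (wt d (φ i) : ℝ) := by exact_mod_cast hsum
      have h3 : (T : ℝ) / (n * q) ≤ (∑ i, (wt d (φ i) : ℝ)) / (n * q) := by gcongr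
      linarith
    rw [hJ, hdet, Finset.prod_pow_eq_pow_sum]
    refine ⟨(p : ℂ) ^ (∑ i, kk q (φ i) - k) * Matrix.det (Matrix.of z), ?_, ?_⟩
    · refine (pInt p).mul_mem ((pInt p).pow_mem (natCast_mem _ _) _) ?_
      rw [Matrix.det_apply']
      refine (pInt p).sum_mem fun π _ => (pInt p).mul_mem (intCast_mem _ _) ((pInt p).prod_mem fun i _ => hz _ _)
    · rw [← mul_assoc, ← pow_add, Nat.add_sub_cancel' hkle]
  refine Dt_mem hS univ _ (fun i hi => absurd (mem_univ i) hi) fun i => ?_
  have h1 : LeW d (wt d (a i)) (MvPolynomial.monomial (a i) (1 : ℤ)) := (lead_GG hF (a i)).1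
  have h2 := mem_span_GG hF _ _ h1
  have h3 : mon x (a i) = (MvPolynomial.aeval x).toLinearMap (MvPolynomial.monomial (a i) (1 : ℤ)) := by
    rw [AlgHom.toLinearMap_apply, aeval_monomial_eq, map_one, one_mul]
  rw [h3]
  have h4 := Submodule.mem_map_of_mem (f := (MvPolynomial.aeval (R := ℤ) x).toLinearMap) h2
  rw [Submodule.map_span] at h4
  refine Submodule.span_mono ?_ h4
  rintro _ ⟨_, ⟨b, _, rfl⟩, rfl⟩
  exact ⟨b, rfl⟩

end Pool.Agent.H446.AP5
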