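import Mathlib

/-!
# Products of conjugates and leading coefficients
-/

set_option autoImplicit false

namespace Pool.Agent.H446.AP5

open Polynomial Finset

/-- All coefficients are algebraic integers. -/
def IC (f : ℂ[X]) : Prop := ∀ i, IsIntegral ℤ (f.coeff i)

lemma IC.sub {f g : ℂ[X]} (hf : IC f) (hg : IC g) : IC (f - g) := fun i => by
  rw [coeff_sub]
  exact (hf i).sub (hg i)

lemma IC.add {f g : ℂ[X]} (hf : IC f) (hg : IC g) : IC (f + g) := fun i => by
  rw [coeff_add]
  exact (hf i).add (hg i)

/-- The leading coefficient times a root is integral. -/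
lemma isIntegral_lc_mul {f : ℂ[X]} (hf : IC f) {α : ℂ} (hα : f.eval α = 0) : IsIntegral ℤ (f.leadingCoeff * α) := by
  have h1 : f ∈ lifts (algebraMap (integralClosure ℤ ℂ) ℂ) := by
    rw [lifts_iff_coeff_lifts]
    intro i
    exact ⟨⟨f.coeff i, hf i⟩, rfl⟩
  obtain ⟨F, hF⟩ := (mem_lifts f).1 h1
  have h2 := isIntegral_leadingCoeff_smul F α (by
    rw [aeval_def, ← eval_map, hF]
    exact hα)
  have h3 : F.leadingCoeff • α = f.leadingCoeff * α := by
    rw [Algebra.smul_def, ← hF, leadingCoeff_map_of_injective]
    exact Subtype.val_injective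
  rw [h3] at h2
  exact isIntegral_trans _ h2

lemma IC.of_mul (α : ℂ) : ∀ (n : ℕ) (f g : ℂ[X]), f.natDegree ≤ n → f = (X - C α) * g → IC f → IC g := by
  intro n
  induction n with
  | zero =>
    intro f g hn hfg _
    by_cases hg : g = 0
    · rw [hg]
      intro i
      rw [coeff_zero]
      exact isIntegral_zero
    · exfalso
      rw [hfg, natDegree_mul (X_sub_C_ne_zero α) hg, natDegree_X_sub_C] at hn
      omega
  | succ n ih =>
    intro f g hn hfg hf
    rcases Nat.lt_or_ge f.natDegree (n + 1) with h | h
    · exact ih f g (by omega) hfg hf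
    · have hd : f.natDegree = n + 1 := le_antisymm hn h
      have hf0 : f ≠ 0 := by
        intro h0
        rw [h0, natDegree_zero] at hd
        omega
      set b := f.leadingCoeff with hb
      have hroot : f.eval α = 0 := by
        rw [hfg]
        simp
      have hbα : IsIntegral ℤ (b * α) := isIntegral_lc_mul hf hroot
      have hbi : IsIntegral ℤ b := hf _
      have h1 : IC (C b * X ^ (n + 1) - C (b * α) * X ^ n) := by
        intro i
        rw [coeff_sub, coeff_C_mul, coeff_C_mul, coeff_X_pow, coeff_X_pow]
        refine IsIntegral.sub ?_ ?_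
        · split_ifs
          · rwa [mul_one]
          · rw [mul_zero]
            exact isIntegral_zero
        · split_ifs
          · rwa [mul_one]
          · rw [mul_zero]
            exact isIntegral_zero
      have h2 : f - (C b * X ^ (n + 1) - C (b * α) * X ^ n) = (X - C α) * (g - C b * X ^ n) := by
        rw [hfg, C_mul]
        ring
      have h3 : (f - (C b * X ^ (n + 1) - C (b * α) * X ^ n)).natDegree ≤ n := by
        rw [natDegree_le_iff_coeff_eq_zero]
        intro i hi
        rw [coeff_sub, coeff_sub, coeff_C_mul, coeff_C_mul, coeff_X_pow, coeff_X_pow]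
        rcases Nat.lt_or_ge (n + 1) i with h4 | h4
        · rw [coeff_eq_zero_of_natDegree_lt (by omega), if_neg (by omega), if_neg (by omega)]
          ring
        · have h5 : i = n + 1 := by omega
          rw [h5, if_pos rfl, if_neg (by omega), hb, leadingCoeff, hd]
          ring
      have h4 := ih _ _ h3 h2 (hf.sub h1)
      have h5 : IC (C b * X ^ n) := by
        intro i
        rw [coeff_C_mul, coeff_X_pow]
        split_ifs
        · rwa [mul_one]
        · rw [mul_zero]
          exact isIntegral_zero
      have h6 := h4.add h5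
      rwa [sub_add_cancel] at h6

lemma IC.sub_prod {ι : Type*} [DecidableEq ι] (b : ℂ) (α : ι → ℂ) (t : Finset ι) : ∀ u : Finset ι, Disjoint t u →
    IC (C b * ∏ i ∈ t ∪ u, (X - C (α i))) → IC (C b * ∏ i ∈ t, (X - C (α i))) := by
  intro u
  induction u using Finset.induction_on with
  | empty =>
    intro _ h
    rwa [union_empty] at h
  | insert i u hi ih =>
    intro hd h
    rw [disjoint_insert_right] at hd
    refine ih hd.2 ?_
    rw [union_insert, prod_insert (by
      rw [mem_union]
      exact fun h => h.elim hd.1 hi)] at h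
    refine IC.of_mul (α i) _ _ _ le_rfl ?_ h
    ring

/-- The leading coefficient times the product of some of the roots is integral. -/
lemma isIntegral_mul_prod {ι : Type*} [Fintype ι] [DecidableEq ι] {b : ℂ} {α : ι → ℂ}
    (h : IC (C b * ∏ i, (X - C (α i)))) (t : Finset ι) : IsIntegral ℤ (b * ∏ i ∈ t, α i) := by
  have h1 : t ∪ tᶜ = univ := union_compl t
  have h2 := IC.sub_prod b α t tᶜ disjoint_compl_right (by rwa [h1])
  have h3 := h2 0
  rw [coeff_C_mul, coeff_zero_eq_eval_zero, eval_prod] at h3
  have h4 : ∏ i ∈ t, eval 0 (X - C (α i)) = (-1) ^ t.card * ∏ i ∈ t, α i := by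
    simp only [eval_sub, eval_X, eval_C, zero_sub]
    rw [← Finset.prod_const, ← Finset.prod_mul_distrib]
    exact Finset.prod_congr rfl fun i _ => by ring
  rw [h4] at h3
  have h5 : b * ∏ i ∈ t, α i = (-1) ^ t.card * (b * ((-1) ^ t.card * ∏ i ∈ t, α i)) := by
    have h6 : ((-1 : ℂ)) ^ t.card * (-1) ^ t.card = 1 := by
      rw [← mul_pow]
      norm_num
    linear_combination (-(b * ∏ i ∈ t, α i)) * h6
  rw [h5]
  exact ((isIntegral_one.neg).pow _).mul h3

lemma isIntegral_pow_mul_prod {ι : Type*} [Fintype ι] [DecidableEq ι] {b : ℂ} {α : ι → ℂ}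
    (h : IC (C b * ∏ i, (X - C (α i)))) (D : ℕ) (e : ι → ℕ) (he : ∀ i, e i ≤ D) :
    IsIntegral ℤ (b ^ D * ∏ i, α i ^ e i) := by
  have h1 : b ^ D * ∏ i, α i ^ e i = ∏ t ∈ range D, (b * ∏ i ∈ univ.filter (fun i => t < e i), α i) := by
    rw [Finset.prod_mul_distrib, Finset.prod_const, card_range]
    congr 1
    simp only [Finset.prod_filter]
    rw [Finset.prod_comm]
    refine Finset.prod_congr rfl fun i _ => ?_
    rw [← Finset.prod_filter, Finset.prod_const]
    congr 1
    have h2 : (range D).filter (fun t => t < e i) = range (e i) := by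
      ext t
      rw [mem_filter, mem_range, mem_range]
      have := he i
      omega
    rw [h2, card_range]
  rw [h1]
  exact IsIntegral.prod _ fun t _ => isIntegral_mul_prod h _

end Pool.Agent.H446.AP5
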