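import Pool.Agent.H446.AP5.Local
import Pool.Agent.H446.AP5.Padic
import Pool.Agent.H446.AP4.Gen

/-!
# Operators over `ℤ[x]`
-/

set_option autoImplicit false

namespace Pool.Agent.H446.AP5

open Finset Polynomial
open Pool.Agent.H446.AP4 (curv comp map_comp' map_curv pInt Kap mk_eq_zero_iff)

/-- The test over the complex numbers. -/
def TestC {σ : Type*} [Fintype σ] (d : σ → ℕ) (p q : ℕ) (ω : σ → ℂ) : Prop := ∃ _ : Fact p.Prime,
  (∀ i, ω i ∈ pInt p) ∧ ∃ F : σ → MvPolynomial σ ℤ,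
    (∀ i, Lead d (q * d i) (F i) (MvPolynomial.X i ^ q)) ∧
      ∀ i, ∃ y ∈ pInt p, MvPolynomial.aeval ω (F i) = p * y

/-- Evaluation modulo `p`. -/
lemma aeval_of_kap {σ : Type*} [Fintype σ] {p : ℕ} [Fact p.Prime] {ω : σ → ℂ} (z : σ → pInt p)
    (hz : ∀ s, (z s : ℂ) = ω s) {F : MvPolynomial σ ℤ}
    (h : MvPolynomial.eval₂ (Int.castRingHom (Kap p))
      (fun s => Ideal.Quotient.mk (Ideal.span {((p : ℕ) : pInt p)}) (z s)) F = 0) :
    ∃ y ∈ pInt p, MvPolynomial.aeval ω F = p * y := by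
  have h1 : MvPolynomial.eval₂ (Int.castRingHom (Kap p))
      (fun s => Ideal.Quotient.mk (Ideal.span {((p : ℕ) : pInt p)}) (z s)) F =
      Ideal.Quotient.mk (Ideal.span {((p : ℕ) : pInt p)}) (MvPolynomial.eval₂ (Int.castRingHom (pInt p)) z F) := by
    rw [MvPolynomial.hom_eval₂]
    congr 1
  rw [h1] at h
  obtain ⟨y, hy, hy'⟩ := (mk_eq_zero_iff _).1 h
  refine ⟨y, hy, ?_⟩
  rw [← hy']
  have h2 : ((MvPolynomial.eval₂ (Int.castRingHom (pInt p)) z F : pInt p) : ℂ) =
      (pInt p).subtype (MvPolynomial.eval₂ (Int.castRingHom (pInt p)) z F) := rfl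
  rw [h2, MvPolynomial.hom_eval₂, MvPolynomial.aeval_def]
  have h3 : (fun s => (pInt p).subtype (z s)) = ω := by
    funext s
    exact hz s
  rw [h3]
  congr 1

/-- The functional on the polynomials. -/
noncomputable def fun1 {p : ℕ} {V : Type*} [CommRing V] [CharP V p] (φ : (ZMod p)[X] →ₗ[ZMod p] ZMod p) :
    V[X] →ₗ[V] V := Polynomial.lsum fun l => LinearMap.toSpanSingleton V V (ZMod.castHom (dvd_refl p) V (φ (X ^ l)))

lemma fun1_mul {p : ℕ} {V : Type*} [CommRing V] [CharP V p] (φ : (ZMod p)[X] →ₗ[ZMod p] ZMod p) (o : (ZMod p)[X])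
    (c : V) : fun1 φ (mapRingHom (ZMod.castHom (dvd_refl p) V) o * C c) = ZMod.castHom (dvd_refl p) V (φ o) * c := by
  induction o using Polynomial.induction_on' with
  | add f g hf hg => rw [map_add, add_mul, map_add, hf, hg, map_add, map_add, add_mul]
  | monomial l a =>
    have h1 : mapRingHom (ZMod.castHom (dvd_refl p) V) (monomial l a) * C c =
        monomial l (ZMod.castHom (dvd_refl p) V a * c) := by
      rw [coe_mapRingHom, map_monomial, monomial_mul_C]
    have h2 : monomial l a = a • (X ^ l : (ZMod p)[X]) := by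
      rw [smul_eq_C_mul, C_mul_X_pow_eq_monomial]
    rw [h1]
    unfold fun1
    rw [lsum_apply, sum_monomial_index, LinearMap.toSpanSingleton_apply, h2, map_smul, smul_eq_mul, smul_eq_mul,
      map_mul]
    · ring
    · exact map_zero _

/-- The evaluation map. -/
noncomputable def evp {σ : Type*} (p : ℕ) {V : Type*} [CommRing V] [CharP V p] (y : σ → V) :
    MvPolynomial σ (ZMod p)[X] →+* V[X] :=
  MvPolynomial.eval₂Hom (mapRingHom (ZMod.castHom (dvd_refl p) V)) fun s => C (y s)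

lemma evp_monomial {σ : Type*} [Fintype σ] (p : ℕ) {V : Type*} [CommRing V] [CharP V p] (y : σ → V) (a : σ →₀ ℕ)
    (o : (ZMod p)[X]) : evp p y (MvPolynomial.monomial a o) =
      mapRingHom (ZMod.castHom (dvd_refl p) V) o * C (mon y a) := by
  unfold evp mon
  rw [MvPolynomial.eval₂Hom_monomial, Finsupp.prod_fintype _ _ (fun i => pow_zero _), map_prod]
  congr 1
  exact Finset.prod_congr rfl fun s _ => by rw [C_pow]

lemma evp_mvc {σ : Type*} [Fintype σ] (p : ℕ) {V : Type*} [CommRing V] [CharP V p] (y : σ → V)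
    (f : MvPolynomial σ (ZMod p)[X]) :
    evp p y (mvc (fun f : (ZMod p)[X] => derivative f) f) = derivative (evp p y f) := by
  have h0 : (fun f : (ZMod p)[X] => derivative f) 0 = 0 := derivative_zero
  have h1 : evp p y f = ∑ a ∈ f.support, evp p y (MvPolynomial.monomial a (f.coeff a)) := by
    conv_lhs => rw [f.as_sum]
    rw [map_sum]
  have h2 : mvc (fun f : (ZMod p)[X] => derivative f) f =
      ∑ a ∈ f.support, MvPolynomial.monomial a (derivative (f.coeff a)) := rfl
  rw [h1, h2, map_sum, derivative_sum]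
  refine Finset.sum_congr rfl fun a _ => ?_
  rw [evp_monomial, evp_monomial, derivative_mul, derivative_C, mul_zero, add_zero, coe_mapRingHom, derivative_map]

/-- Linear independence of the `p`-th powers. -/
lemma li_pow {p : ℕ} [hp : Fact p.Prime] {O : Type*} [CommRing O] [IsDomain O] [Algebra (ZMod p) O] {ι : Type*}
    [Fintype ι] {u : O} (hu : u ≠ 0) {g : ι → O} (hg : LinearIndependent (ZMod p) g) :
    LinearIndependent (ZMod p) fun k => (-(u * g k)) ^ p := by
  have hch : CharP O p := charP_of_injective_algebraMap (algebraMap (ZMod p) O).injective p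
  rw [Fintype.linearIndependent_iff] at hg ⊢
  intro c hc
  apply hg c
  have h1 : ∑ i, c i • (-(u * g i)) ^ p = (-(u * ∑ i, c i • g i)) ^ p := by
    rw [Finset.mul_sum, ← Finset.sum_neg_distrib, sum_pow_char]
    refine Finset.sum_congr rfl fun i _ => ?_
    have h2 : -(u * c i • g i) = c i • (-(u * g i)) := by
      rw [mul_smul_comm, smul_neg]
    rw [h2, _root_.smul_pow, ZMod.pow_card]
  rw [h1] at hc
  have h2 := pow_eq_zero_iff hp.out.ne_zero |>.1 hc
  exact (mul_eq_zero.1 (neg_eq_zero.1 h2)).resolve_left hu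

variable {n : ℕ} {κ : Fin n → Type*} [∀ j, Fintype (κ j)]

/-- The curvature of a member of a family. -/
noncomputable def cv {T : Type*} [CommRing T] (p : ℕ) (Δ : ℤ[X]) (b : Fin n → ℤ[X]) (g : (j : Fin n) → κ j → ℤ[X])
    (z : (Σ j, κ j) → T) : Matrix (Fin n) (Fin n) T[X] :=
  curv (fun f : T[X] => derivative f) (Δ.map (Int.castRingHom T))
    (comp (Δ.map (Int.castRingHom T)) fun j => (b j).map (Int.castRingHom T) +
      ∑ k, C (z ⟨j, k⟩) * (g j k).map (Int.castRingHom T)) p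

lemma map_cv {R T : Type*} [CommRing R] [CommRing T] (f : R →+* T) (p : ℕ) (Δ : ℤ[X]) (b : Fin n → ℤ[X])
    (g : (j : Fin n) → κ j → ℤ[X]) (z : (Σ j, κ j) → R) :
    (cv p Δ b g z).map (mapRingHom f) = cv p Δ b g (fun s => f (z s)) := by
  unfold cv
  have h1 : ∀ q : ℤ[X], mapRingHom f (q.map (Int.castRingHom R)) = q.map (Int.castRingHom T) := by
    intro q
    rw [coe_mapRingHom, Polynomial.map_map]
    congr 1
    exact RingHom.ext_int _ _
  rw [map_curv (mapRingHom f) (δ' := fun f : T[X] => derivative f) (fun r => by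
    rw [coe_mapRingHom, derivative_map]), map_comp', h1]
  congr 2
  funext j
  rw [map_add, h1, map_sum]
  congr 1
  refine Finset.sum_congr rfl fun k _ => ?_
  rw [map_mul, h1, coe_mapRingHom, map_C]

lemma evp_C {σ : Type*} (p : ℕ) {V : Type*} [CommRing V] [CharP V p] (y : σ → V) (q : ℤ[X]) :
    evp p y (MvPolynomial.C (q.map (Int.castRingHom (ZMod p)))) = q.map (Int.castRingHom V) := by
  unfold evp
  rw [MvPolynomial.coe_eval₂Hom, MvPolynomial.eval₂_C, coe_mapRingHom, Polynomial.map_map]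
  congr 1
  exact RingHom.ext_int _ _

lemma evp_co (p : ℕ) {V : Type*} [CommRing V] [CharP V p] (y : (Σ j, κ j) → V) (b : Fin n → ℤ[X])
    (g : (j : Fin n) → κ j → ℤ[X]) (j : Fin n) :
    evp p y (co (fun j => (b j).map (Int.castRingHom (ZMod p)))
      (fun j k => (g j k).map (Int.castRingHom (ZMod p))) j) = (b j).map (Int.castRingHom V) +
        ∑ k, C (y ⟨j, k⟩) * (g j k).map (Int.castRingHom V) := by
  unfold co lin
  rw [map_add, evp_C, map_sum]
  congr 1
  refine Finset.sum_congr rfl fun k _ => ?_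
  rw [map_mul, evp_C, mul_comm]
  congr 1
  unfold evp
  rw [MvPolynomial.eval₂Hom_X']

theorem local_poly {V : Type*} [CommRing V] {p : ℕ} [hp : Fact p.Prime] [CharP V p] {Δ : ℤ[X]} {b : Fin n → ℤ[X]}
    {g : (j : Fin n) → κ j → ℤ[X]} (hΔ : Δ.map (Int.castRingHom (ZMod p)) ≠ 0)
    (hg : ∀ j, LinearIndependent (ZMod p) fun k => (g j k).map (Int.castRingHom (ZMod p)))
    (y : (Σ j, κ j) → V) (hnil : ∀ j : Fin n, (cv p Δ b g y).charpoly.coeff j = 0) (s : Σ j, κ j) :
    ∃ F : MvPolynomial (Σ j, κ j) ℤ, Lead dw (p * dw s) F (MvPolynomial.X s ^ p) ∧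
      MvPolynomial.eval₂ (Int.castRingHom V) y F = 0 := by
  have hu : ((-(Δ.map (Int.castRingHom (ZMod p)))) ^ (n - 1)) ≠ 0 := pow_ne_zero _ (neg_ne_zero.2 hΔ)
  refine local5 (n := n) (κ := κ) (p := p) (O := (ZMod p)[X]) (δ := fun f => derivative f) derivative_zero
    (Δ.map (Int.castRingHom (ZMod p))) (fun j => (b j).map (Int.castRingHom (ZMod p)))
    (fun j k => (g j k).map (Int.castRingHom (ZMod p))) (fun j => li_pow hu (hg j)) (S := V[X]) (V := V)
    (fun f => derivative f) (evp p y) (evp_mvc p _) (fun j => ?_) y (fun φ =>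
      ⟨(fun1 φ).toAddMonoidHom, fun a o => ?_⟩) s
  · have h := hnil j
    unfold cv at h
    simp only [evp_C, evp_co]
    exact h
  · rw [evp_monomial]
    exact fun1_mul φ o _

theorem test_of_nilp {Δ : ℤ[X]} {b : Fin n → ℤ[X]} {g : (j : Fin n) → κ j → ℤ[X]} {p : ℕ} [hp : Fact p.Prime]
    (hΔ : Δ.map (Int.castRingHom (ZMod p)) ≠ 0)
    (hg : ∀ j, LinearIndependent (ZMod p) fun k => (g j k).map (Int.castRingHom (ZMod p)))
    {ω : (Σ j, κ j) → ℂ} (hω : ∀ s, ω s ∈ pInt p)
    (hnil : ∀ (j : Fin n) (l : ℕ), ∃ y ∈ pInt p, ((cv p Δ b g ω).charpoly.coeff j).coeff l = p * y) :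
    TestC dw p p ω := by
  obtain ⟨z, hz⟩ : ∃ z : (Σ j, κ j) → pInt p, ∀ s, (z s : ℂ) = ω s := ⟨fun s => ⟨ω s, hω s⟩, fun s => rfl⟩
  have hcoef : ∀ (j : Fin n), (cv p Δ b g
      (fun s => Ideal.Quotient.mk (Ideal.span {((p : ℕ) : pInt p)}) (z s))).charpoly.coeff j = 0 := by
    intro j
    rw [← map_cv, Matrix.charpoly_map, coeff_map]
    ext l
    rw [coe_mapRingHom, coeff_map, coeff_zero]
    have h1 := map_cv (pInt p).subtype p Δ b g z
    have h3 : (fun s => (pInt p).subtype (z s)) = ω := by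
      funext s
      exact hz s
    rw [h3] at h1
    have h2 : ((((cv p Δ b g z).map (mapRingHom (pInt p).subtype)).charpoly).coeff j).coeff l =
        ((((cv p Δ b g z).charpoly.coeff j).coeff l : pInt p) : ℂ) := by
      rw [Matrix.charpoly_map, coeff_map, coe_mapRingHom, coeff_map]
      rfl
    rw [h1] at h2
    obtain ⟨y, hy, hy'⟩ := hnil j l
    refine (mk_eq_zero_iff _).2 ⟨y, hy, ?_⟩
    rw [← h2]
    exact hy'
  have key := fun s => local_poly (V := Kap p) hΔ hg _ hcoef s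
  choose F hF hF' using key
  exact ⟨hp, hω, F, hF, fun s => aeval_of_kap z hz (hF' s)⟩

end Pool.Agent.H446.AP5
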