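import Pool.Agent.H446.AP5.Lead
import Pool.Agent.H446.AP4.Curv

/-!
# The characteristic polynomial of the `p`-curvature of the generic operator
-/

set_option autoImplicit false

namespace Pool.Agent.H446.AP5

open Finset MvPolynomial
open Pool.Agent.H446.AP4 (Sup topc mapc coeff_mapc curv curv_succ curv_sup curv_top comp comp_pow map_comp' map_curv
  topc_natCast topc_zero topc_mul topc_sum topc_add sup_zero sup_C sup_mapc topc_eq_zero)

/-! ### Coefficientwise maps -/

section mvc

variable {σ R S : Type*} [CommRing R] [CommRing S]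

/-- Apply a function to the coefficients. -/
noncomputable def mvc (φ : R → S) (f : MvPolynomial σ R) : MvPolynomial σ S :=
  ∑ a ∈ f.support, monomial a (φ (f.coeff a))

lemma coeff_mvc {φ : R → S} (hφ : φ 0 = 0) (f : MvPolynomial σ R) (a : σ →₀ ℕ) :
    (mvc φ f).coeff a = φ (f.coeff a) := by
  classical
  unfold mvc
  rw [coeff_sum]
  simp only [coeff_monomial]
  rw [Finset.sum_ite_eq' f.support a fun b => φ (f.coeff b)]
  split_ifs with h
  · rfl
  · rw [mem_support_iff, not_not] at h
    rw [h, hφ]

end mvc

/-! ### Scaling -/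

section sc

variable {σ R : Type*} [Fintype σ] [CommRing R]

/-- Multiply the variable `X i` by `t ^ d i`. -/
noncomputable def sc (d : σ → ℕ) : MvPolynomial σ R →+* Polynomial (MvPolynomial σ R) :=
  eval₂Hom (Polynomial.C.comp MvPolynomial.C) (fun i => Polynomial.monomial (d i) (X i))

lemma prod_monomial' {ι A : Type*} [CommRing A] (s : Finset ι) (n : ι → ℕ) (r : ι → A) :
    ∏ i ∈ s, Polynomial.monomial (n i) (r i) = Polynomial.monomial (∑ i ∈ s, n i) (∏ i ∈ s, r i) := by
  classical
  induction s using Finset.induction_on with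
  | empty => simp
  | insert a s ha ih => rw [prod_insert ha, prod_insert ha, sum_insert ha, ih, Polynomial.monomial_mul_monomial]

lemma sc_monomial (d : σ → ℕ) (a : σ →₀ ℕ) (c : R) :
    sc d (monomial a c) = Polynomial.monomial (wt d a) (monomial a c) := by
  unfold sc
  rw [eval₂Hom_monomial, Finsupp.prod_fintype _ _ (fun i => pow_zero _)]
  simp only [Polynomial.monomial_pow]
  rw [prod_monomial', RingHom.comp_apply, Polynomial.C_mul_monomial]
  have h1 : ∑ i, d i * a i = wt d a := by
    unfold wt
    exact Finset.sum_congr rfl fun i _ => mul_comm _ _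
  have h2 : C c * ∏ i, (X i : MvPolynomial σ R) ^ a i = monomial a c := by
    rw [monomial_eq, Finsupp.prod_fintype _ _ (fun i => pow_zero _)]
  rw [h1, h2]

lemma coeff_sc (d : σ → ℕ) (f : MvPolynomial σ R) (w : ℕ) (a : σ →₀ ℕ) :
    ((sc d f).coeff w).coeff a = if wt d a = w then f.coeff a else 0 := by
  classical
  induction f using MvPolynomial.induction_on' with
  | monomial u c =>
    rw [sc_monomial, Polynomial.coeff_monomial]
    split_ifs with h1 h2 h2
    · rfl
    · rw [coeff_monomial, if_neg]
      rintro rfl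
      exact h2 h1
    · rw [coeff_zero, coeff_monomial, if_neg]
      rintro rfl
      exact h1 h2
    · exact coeff_zero _
  | add p q hp hq =>
    rw [map_add, Polynomial.coeff_add, coeff_add, hp, hq, coeff_add]
    split_ifs
    · rfl
    · exact add_zero _

lemma sc_mvc (d : σ → ℕ) {δ : R → R} (hδ : δ 0 = 0) (f : MvPolynomial σ R) :
    sc d (mvc δ f) = mapc (mvc δ) (sc d f) := by
  have h0 : (mvc δ : MvPolynomial σ R → MvPolynomial σ R) 0 = 0 := by
    ext a
    rw [coeff_mvc hδ, coeff_zero, hδ]
  ext w a
  rw [coeff_sc, coeff_mapc h0, coeff_mvc hδ, coeff_mvc hδ, coeff_sc]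
  split_ifs
  · rfl
  · exact hδ.symm

omit [Fintype σ] in
lemma sc_C (d : σ → ℕ) (r : R) : sc d (C r) = Polynomial.C (C r) := by
  unfold sc
  rw [coe_eval₂Hom, eval₂_C]
  rfl

end sc

/-! ### Determinants -/

section det

variable {R : Type*} [CommRing R]

lemma topc_sub (u : ℝ) (F G : Polynomial R) : topc u (F - G) = topc u F - topc u G := by
  unfold topc
  split_ifs
  · exact Polynomial.coeff_sub _ _ _
  · rw [sub_zero]

lemma sup_prod {ι : Type*} (s : Finset ι) {u : ι → ℝ} {F : ι → Polynomial R} (h : ∀ i ∈ s, Sup (u i) (F i)) :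
    Sup (∑ i ∈ s, u i) (∏ i ∈ s, F i) ∧ topc (∑ i ∈ s, u i) (∏ i ∈ s, F i) = ∏ i ∈ s, topc (u i) (F i) := by
  classical
  induction s using Finset.induction_on with
  | empty =>
    rw [sum_empty, prod_empty, prod_empty]
    refine ⟨?_, ?_⟩
    · have := sup_C (1 : R)
      rwa [Polynomial.C_1] at this
    · rw [← Nat.cast_zero, topc_natCast, Polynomial.coeff_one_zero]
  | insert a s ha ih =>
    obtain ⟨ih1, ih2⟩ := ih fun i hi => h i (mem_insert_of_mem hi)
    have h1 := h a (mem_insert_self _ _)
    rw [sum_insert ha, prod_insert ha, prod_insert ha]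
    exact ⟨h1.mul ih1, by rw [topc_mul h1 ih1, ih2]⟩

lemma sup_zsmul {u : ℝ} {F : Polynomial R} (h : Sup u F) (ε : ℤˣ) : Sup u (ε • F) ∧ topc u (ε • F) = ε • topc u F := by
  rcases Int.units_eq_one_or ε with rfl | rfl
  · simp [h]
  · have h1 : (-1 : ℤˣ) • F = -F := by
      rw [Units.smul_def]
      simp
    have h2 : (-1 : ℤˣ) • topc u F = -topc u F := by
      rw [Units.smul_def]
      simp
    rw [h1, h2]
    refine ⟨h.neg, ?_⟩
    have h3 := topc_add u F (-F)
    rw [add_neg_cancel, topc_zero] at h3
    exact (neg_eq_of_add_eq_zero_right h3.symm).symm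

lemma sup_det {ι : Type*} [Fintype ι] [DecidableEq ι] {u : ℝ} {w : ι → ℝ} {M : Matrix ι ι (Polynomial R)}
    (h : ∀ i j, Sup (u + w i - w j) (M i j)) : Sup (Fintype.card ι * u) M.det ∧
      topc (Fintype.card ι * u) M.det = (Matrix.of fun i j => topc (u + w i - w j) (M i j)).det := by
  have h0 : ∀ π : Equiv.Perm ι, ∑ i, (u + w (π i) - w i) = Fintype.card ι * u := by
    intro π
    rw [Finset.sum_sub_distrib, Finset.sum_add_distrib, Equiv.sum_comp π w, Finset.sum_const, card_univ, nsmul_eq_mul]
    ring
  have h1 : ∀ π : Equiv.Perm ι, Sup (Fintype.card ι * u) (∏ i, M (π i) i) ∧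
      topc (Fintype.card ι * u) (∏ i, M (π i) i) = ∏ i, topc (u + w (π i) - w i) (M (π i) i) := by
    intro π
    rw [← h0 π]
    exact sup_prod _ fun i _ => h (π i) i
  rw [Matrix.det_apply, Matrix.det_apply]
  refine ⟨Sup.sum _ fun π _ => (sup_zsmul (h1 π).1 _).1, ?_⟩
  rw [topc_sum]
  refine Finset.sum_congr rfl fun π _ => ?_
  rw [(sup_zsmul (h1 π).1 _).2, (h1 π).2]
  rfl

/-- Replace `λ` by `λ t ^ k`. -/
noncomputable def th (k : ℕ) : Polynomial (Polynomial R) →+* Polynomial (Polynomial R) :=
  Polynomial.eval₂RingHom (Polynomial.mapRingHom Polynomial.C) (Polynomial.monomial k Polynomial.X)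

lemma coeff_th (k : ℕ) (f : Polynomial (Polynomial R)) (w j : ℕ) :
    ((th k f).coeff w).coeff j = if k * j ≤ w then (f.coeff j).coeff (w - k * j) else 0 := by
  induction f using Polynomial.induction_on' with
  | add p q hp hq =>
    rw [map_add, Polynomial.coeff_add, Polynomial.coeff_add, hp, hq]
    split_ifs
    · rw [Polynomial.coeff_add, Polynomial.coeff_add]
    · exact add_zero _
  | monomial n a =>
    have h1 : th k (Polynomial.monomial n a) =
        (Polynomial.mapRingHom Polynomial.C a) * Polynomial.C (Polynomial.X ^ n) * Polynomial.X ^ (k * n) := by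
      unfold th
      rw [Polynomial.coe_eval₂RingHom, Polynomial.eval₂_monomial, Polynomial.monomial_pow, mul_assoc,
        Polynomial.C_mul_X_pow_eq_monomial]
    rw [h1, Polynomial.coeff_mul_X_pow', Polynomial.coeff_mul_C, Polynomial.coeff_monomial]
    by_cases h2 : n = j
    · subst h2
      rw [if_pos rfl]
      split_ifs with h3
      · rw [Polynomial.coe_mapRingHom, Polynomial.coeff_map, Polynomial.coeff_C_mul, Polynomial.coeff_X_pow_self,
          mul_one]
      · exact Polynomial.coeff_zero _
    · rw [if_neg h2]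
      have h4 : (if k * n ≤ w then (Polynomial.mapRingHom Polynomial.C a).coeff (w - k * n) *
          Polynomial.X ^ n else (0 : Polynomial R)).coeff j = 0 := by
        split_ifs
        · rw [Polynomial.coe_mapRingHom, Polynomial.coeff_map, Polynomial.coeff_C_mul, Polynomial.coeff_X_pow,
            if_neg (fun h => h2 h.symm), mul_zero]
        · exact Polynomial.coeff_zero _
      rw [h4, Polynomial.coeff_zero]
      split_ifs <;> rfl

/-- The coefficients of the characteristic polynomial. -/
theorem sup_charpoly {ι : Type*} [Fintype ι] [DecidableEq ι] {u : ℕ} {w : ι → ℝ} {M : Matrix ι ι (Polynomial R)}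
    (h : ∀ i j, Sup (u + w i - w j) (M i j)) (j : ℕ) (k : ℕ) (hk : (M.charpoly.coeff j).coeff k ≠ 0 ∨
      (u * j + k = Fintype.card ι * u)) : u * j + k ≤ Fintype.card ι * u ∧
      (u * j + k = Fintype.card ι * u → (M.charpoly.coeff j).coeff k =
        (Matrix.of fun i j => topc (u + w i - w j) (M i j)).charpoly.coeff j) := by
  set N : Matrix ι ι (Polynomial (Polynomial R)) := (Matrix.charmatrix M).map (th u) with hN
  have hNe : ∀ i j, N i j = (if i = j then Polynomial.monomial u Polynomial.X else 0) -
      Polynomial.mapRingHom Polynomial.C (M i j) := by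
    intro i j
    rw [hN, Matrix.map_apply, Matrix.charmatrix_apply]
    unfold th
    rw [Polynomial.coe_eval₂RingHom, Polynomial.eval₂_sub, Polynomial.eval₂_C]
    congr 1
    rw [Matrix.diagonal_apply]
    split_ifs
    · rw [Polynomial.eval₂_X]
    · rw [Polynomial.eval₂_zero]
  have hmc : ∀ i j, Sup (u + w i - w j) (Polynomial.mapRingHom Polynomial.C (M i j) : Polynomial (Polynomial R)) := by
    intro i j k hk
    refine h i j k fun h0 => hk ?_
    rw [Polynomial.coe_mapRingHom, Polynomial.coeff_map, h0, map_zero]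
  have htc : ∀ i j, topc (u + w i - w j) (Polynomial.mapRingHom Polynomial.C (M i j) : Polynomial (Polynomial R)) =
      Polynomial.C (topc (u + w i - w j) (M i j)) := by
    intro i j
    unfold topc
    split_ifs
    · rw [Polynomial.coe_mapRingHom, Polynomial.coeff_map]
    · rw [map_zero]
  have hmon : ∀ i j : ι, Sup (u + w i - w j) (if i = j then Polynomial.monomial u (Polynomial.X : Polynomial R)
      else 0) ∧ topc (u + w i - w j) (if i = j then Polynomial.monomial u (Polynomial.X : Polynomial R) else 0) =
      if i = j then Polynomial.X else 0 := by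
    intro i j
    split_ifs with hij
    · subst hij
      rw [add_sub_cancel_right]
      refine ⟨fun k hk => ?_, ?_⟩
      · rw [Polynomial.coeff_monomial] at hk
        split_ifs at hk with h1
        · rw [h1]
        · exact absurd rfl hk
      · rw [topc_natCast, Polynomial.coeff_monomial, if_pos rfl]
    · exact ⟨sup_zero _, topc_zero _⟩
  have hS : ∀ i j, Sup (u + w i - w j) (N i j) := by
    intro i j
    rw [hNe]
    exact (hmon i j).1.sub (hmc i j)
  obtain ⟨h1, h2⟩ := sup_det hS
  have h3 : N.det = th u M.charpoly := by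
    rw [hN, Matrix.charpoly]
    exact ((th u).map_det _).symm
  have h4 : (Matrix.of fun i j => topc (u + w i - w j) (N i j)) =
      Matrix.charmatrix (Matrix.of fun i j => topc (u + w i - w j) (M i j)) := by
    ext1 i j
    rw [Matrix.of_apply, hNe, Matrix.charmatrix_apply, Matrix.of_apply, Matrix.diagonal_apply, topc_sub,
      (hmon i j).2, htc]
  rw [h3, h4] at h2
  rw [h3] at h1
  have hcast : ((Fintype.card ι * u : ℕ) : ℝ) = Fintype.card ι * (u : ℝ) := by push_cast; ring
  rw [← hcast] at h1 h2
  rw [topc_natCast] at h2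
  have hco : ((th u M.charpoly).coeff (u * j + k)).coeff j = (M.charpoly.coeff j).coeff k := by
    rw [coeff_th, if_pos (Nat.le_add_right _ _), Nat.add_sub_cancel_left]
  refine ⟨?_, fun he => ?_⟩
  · rcases hk with hk | hk
    · have h5 : (th u M.charpoly).coeff (u * j + k) ≠ 0 := by
        intro h0
        rw [h0, Polynomial.coeff_zero] at hco
        exact hk hco.symm
      have := h1 _ h5
      exact_mod_cast this
    · exact hk.le
  · rw [← hco, he, h2]
    rfl

end det

end Pool.Agent.H446.AP5
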