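import Pool.Agent.H446.AP5.CurvM

/-!
# The leading forms of the characteristic polynomial of the `p`-curvature
-/

set_option autoImplicit false

namespace Pool.Agent.H446.AP5

open Finset
open Pool.Agent.H446.AP4 (Sup topc mapc coeff_mapc curv curv_succ curv_sup curv_top comp comp_pow map_comp' map_curv
  topc_natCast topc_zero topc_mul topc_sum topc_add sup_zero sup_C sup_mapc topc_eq_zero)

section frob

open Polynomial

variable {A : Type*} [CommRing A] {p : ℕ} [hp : Fact p.Prime] [CharP A p] {ι : Type*} [Fintype ι] [DecidableEq ι]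

lemma expand_charpoly_pow (M : Matrix ι ι A) : expand A p (M ^ p).charpoly = M.charpoly ^ p := by
  cases (isEmpty_or_nonempty ι).symm
  · unfold Matrix.charpoly
    rw [AlgHom.map_det, ← Matrix.coe_detMonoidHom, ← (Matrix.detMonoidHom : Matrix ι ι A[X] →* A[X]).map_pow]
    apply congr_arg Matrix.det
    refine matPolyEquiv.injective ?_
    rw [map_pow, Matrix.matPolyEquiv_charmatrix, sub_pow_char_of_commute, ← C_pow]
    · exact (id (matPolyEquiv_eq_X_pow_sub_C p M) :)
    · exact (C M).commute_X
  · have h1 : ∀ B : Matrix ι ι A, B.charpoly = 1 := fun B => Matrix.det_isEmpty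
    rw [h1, h1, map_one, one_pow]

lemma coeff_charpoly_pow (M : Matrix ι ι A) (j : ℕ) : (M ^ p).charpoly.coeff j = (M.charpoly.coeff j) ^ p := by
  have h1 : (expand A p (M ^ p).charpoly).coeff (j * p) = (M.charpoly ^ p).coeff (j * p) := by
    rw [expand_charpoly_pow]
  rw [coeff_expand_mul hp.out.pos] at h1
  rw [h1, ← map_frobenius_expand (p := p), coeff_map, coeff_expand_mul hp.out.pos, frobenius_def]

end frob

section companion

variable {A : Type*} [CommRing A]

lemma charpoly_comp {n : ℕ} (Δ : A) (a : Fin n → A) (j : Fin n) :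
    (comp Δ a).charpoly.coeff j * (-Δ) ^ (j : ℕ) = -((-Δ) ^ (n - 1) * a j) := by
  classical
  nontriviality A
  have hn : 0 < n := lt_of_le_of_lt (Nat.zero_le _) j.2
  have h1 := Matrix.aeval_self_charpoly (comp Δ a)
  have hdeg : (comp Δ a).charpoly.natDegree = n := by
    rw [Matrix.charpoly_natDegree_eq_dim, Fintype.card_fin]
  rw [Polynomial.aeval_eq_sum_range, hdeg] at h1
  have h2 := congrFun (congrFun h1 ⟨0, hn⟩) j
  rw [Matrix.sum_apply, Finset.sum_range_succ, Matrix.zero_apply] at h2
  have h3 : ∑ k ∈ range n, ((comp Δ a).charpoly.coeff k • comp Δ a ^ k) ⟨0, hn⟩ j =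
      (comp Δ a).charpoly.coeff j * (-Δ) ^ (j : ℕ) := by
    rw [Finset.sum_eq_single (j : ℕ)]
    · rw [Matrix.smul_apply, comp_pow Δ a hn _ j.2, if_pos rfl, smul_eq_mul]
    · intro k hk hkj
      rw [mem_range] at hk
      rw [Matrix.smul_apply, comp_pow Δ a hn _ hk, if_neg (Ne.symm hkj), smul_zero]
    · intro h
      exact absurd (mem_range.2 j.2) h
  have h4 : (comp Δ a).charpoly.coeff n = 1 := by
    have := Matrix.charpoly_monic (comp Δ a)
    rw [Polynomial.Monic, Polynomial.leadingCoeff, hdeg] at this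
    exact this
  have h5 : (comp Δ a ^ n) ⟨0, hn⟩ j = (-Δ) ^ (n - 1) * a j := by
    obtain ⟨k, rfl⟩ : ∃ k, n = k + 1 := ⟨n - 1, by omega⟩
    rw [pow_succ, Matrix.mul_apply, Finset.sum_eq_single (⟨k, by omega⟩ : Fin (k + 1))]
    · rw [comp_pow Δ a hn k (by omega), if_pos rfl]
      simp only [comp, Matrix.of_apply, if_true, Nat.add_sub_cancel]
    · intro l _ hl
      rw [comp_pow Δ a hn k (by omega), if_neg, zero_mul]
      exact fun h => hl (Fin.ext h)
    · intro h
      exact absurd (Finset.mem_univ _) h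
  rw [h3, h4, one_smul, h5] at h2
  exact eq_neg_of_add_eq_zero_left h2

end companion

end Pool.Agent.H446.AP5
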