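import Pool.Agent.H446.AP5.Sub
import Pool.Agent.H446.AP4.PInt

/-!
# The conjugates of an element of a number field
-/

set_option autoImplicit false

namespace Pool.Agent.H446.AP5

open Polynomial Finset IntermediateField Module Pool.Agent.H446.AP

section general

variable {F E : Type*} [Field F] [Field E] [IsAlgClosed E] [Algebra F E]

lemma emb_prod_gen {L : Type*} [Field L] [Algebra F L] [FiniteDimensional F L] [Algebra.IsSeparable F L]
    (pb : PowerBasis F L) :
    ∏ s : L →ₐ[F] E, (X - C (s pb.gen)) = (minpoly F pb.gen).map (algebraMap F E) := by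
  classical
  have hsep : (minpoly F pb.gen).Separable := (Algebra.IsSeparable.isSeparable F pb.gen)
  have hmonic : ((minpoly F pb.gen).map (algebraMap F E)).Monic := (minpoly.monic pb.isIntegral_gen).map _
  have h1 := (IsAlgClosed.splits ((minpoly F pb.gen).map (algebraMap F E))).eq_prod_roots_of_monic hmonic
  rw [h1]
  have h2 : ∏ s : L →ₐ[F] E, (X - C (s pb.gen)) =
      ∏ y : {y : E // y ∈ (minpoly F pb.gen).aroots E}, (X - C (y : E)) := by
    refine Fintype.prod_equiv pb.liftEquiv' _ _ fun s => ?_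
    rw [PowerBasis.liftEquiv'_apply_coe]
  rw [h2]
  have h3 := Finset.prod_mem_multiset ((minpoly F pb.gen).aroots E) (fun y => X - C (y : E)) (fun y => X - C y)
    (fun y => rfl)
  rw [h3, Finset.prod_eq_multiset_prod, Multiset.toFinset_val, Multiset.dedup_eq_self.mpr]
  exact nodup_roots hsep.map

lemma emb_prod' {K : Type*} [Field K] [Algebra F K] [FiniteDimensional F K] [Algebra.IsSeparable F K] (x : K) :
    ∏ s : K →ₐ[F] E, (X - C (s x)) = ((minpoly F x).map (algebraMap F E)) ^ finrank F⟮x⟯ K := by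
  classical
  have hx : IsIntegral F x := Algebra.IsIntegral.isIntegral x
  let pb := adjoin.powerBasis hx
  have hgen : algebraMap F⟮x⟯ K pb.gen = x := by
    rw [adjoin.powerBasis_gen]
    exact AdjoinSimple.algebraMap_gen F x
  have hmin : minpoly F pb.gen = minpoly F x := by
    rw [adjoin.powerBasis_gen]
    exact minpoly_gen F x
  have : Algebra.IsSeparable F⟮x⟯ K := Algebra.isSeparable_tower_top_of_isSeparable F F⟮x⟯ K
  have : Algebra.IsSeparable F F⟮x⟯ := Algebra.isSeparable_tower_bot_of_isSeparable F F⟮x⟯ K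
  rw [← hmin, ← emb_prod_gen (E := E) pb]
  rw [Fintype.prod_equiv algHomEquivSigma (fun σ : K →ₐ[F] E => (X - C (σ x) : E[X]))
    (fun σ : (Σ f : F⟮x⟯ →ₐ[F] E, @AlgHom F⟮x⟯ K E _ _ _ _ f.toRingHom.toAlgebra) => (X - C (σ.1 pb.gen) : E[X])),
    ← Finset.univ_sigma_univ, Finset.prod_sigma, ← Finset.prod_pow]
  · refine Finset.prod_congr rfl fun σ _ => ?_
    let : Algebra F⟮x⟯ E := σ.toRingHom.toAlgebra
    simp_rw [Finset.prod_const]
    congr
    exact AlgHom.card F⟮x⟯ K E
  · intro σ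
    have h1 : (algHomEquivSigma σ).1 pb.gen = σ (algebraMap F⟮x⟯ K pb.gen) := rfl
    rw [h1, hgen]

end general

variable {K : Type*} [Field K] [Algebra ℚ K]

/-- The leading coefficient times the minimal polynomial. -/
lemma map_eq_minpoly {P : ℤ[X]} (hP : Orb P) {x : K} (hx : aeval x P = 0) :
    P.map (Int.castRingHom ℚ) = C ((P.leadingCoeff : ℤ) : ℚ) * minpoly ℚ x := by
  have h1 : Irreducible (P.map (Int.castRingHom ℚ)) :=
    (IsPrimitive.Int.irreducible_iff_irreducible_map_cast hP.primitive).1 hP.1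
  have h2 : aeval x (P.map (Int.castRingHom ℚ)) = 0 := by
    have : aeval x (P.map (Int.castRingHom ℚ)) = aeval x P := by
      rw [aeval_def, eval₂_map, aeval_def]
      congr 1
      exact RingHom.ext_int _ _
    rw [this, hx]
  have h3 := minpoly.eq_of_irreducible h1 h2
  rw [← h3, leadingCoeff_map_of_injective (RingHom.injective_int _), eq_intCast, mul_comm, mul_assoc, ← C_mul,
    inv_mul_cancel₀, C_1, mul_one]
  have := hP.2.2
  exact_mod_cast this.ne'

/-- A polynomial over the integers whose roots are the conjugates. -/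
theorem exists_conj [FiniteDimensional ℚ K] {P : ℤ[X]} (hP : Orb P) {H : ℝ} (hH : Real.log (mm P) ≤ P.natDegree * H) {x : K}
    (hx : aeval x P = 0) : ∃ R : ℤ[X], R ≠ 0 ∧
      R.map (Int.castRingHom ℂ) = C ((R.leadingCoeff : ℤ) : ℂ) * ∏ s : K →ₐ[ℚ] ℂ, (X - C (s x)) ∧
      Real.log (mm R) ≤ finrank ℚ K * H := by
  have hxi : IsIntegral ℚ x := Algebra.IsIntegral.isIntegral x
  have h0 := map_eq_minpoly hP hx
  have hmap : P.map (Int.castRingHom ℂ) = C ((P.leadingCoeff : ℤ) : ℂ) * (minpoly ℚ x).map (algebraMap ℚ ℂ) := by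
    have h1 := congrArg (fun q => q.map (algebraMap ℚ ℂ)) h0
    simp only [Polynomial.map_map, Polynomial.map_mul, Polynomial.map_C] at h1
    rw [show (algebraMap ℚ ℂ).comp (Int.castRingHom ℚ) = Int.castRingHom ℂ from RingHom.ext_int _ _] at h1
    rw [h1, map_intCast]
  have hdeg : P.natDegree * finrank ℚ⟮x⟯ K = finrank ℚ K := by
    rw [← finrank_mul_finrank ℚ ℚ⟮x⟯ K, adjoin.finrank hxi]
    congr 1
    have h1 := congrArg natDegree h0
    rw [natDegree_map_eq_of_injective (RingHom.injective_int _), natDegree_C_mul] at h1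
    · exact h1
    · have := hP.2.2
      exact_mod_cast this.ne'
  refine ⟨P ^ finrank ℚ⟮x⟯ K, pow_ne_zero _ hP.ne_zero, ?_, ?_⟩
  · rw [Polynomial.map_pow, hmap, mul_pow, ← emb_prod' (F := ℚ) (E := ℂ), leadingCoeff_pow, Int.cast_pow, C_pow]
  · have h1 : mm (P ^ finrank ℚ⟮x⟯ K) = mm P ^ finrank ℚ⟮x⟯ K := by
      unfold mm
      rw [Polynomial.map_pow]
      generalize finrank ℚ⟮x⟯ K = k
      induction k with
      | zero => simp
      | succ k ih => rw [pow_succ, mahlerMeasure_mul, ih, pow_succ]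
    rw [h1, Real.log_pow, ← hdeg]
    push_cast
    calc (finrank ℚ⟮x⟯ K : ℝ) * Real.log (mm P) ≤ finrank ℚ⟮x⟯ K * (P.natDegree * H) := by gcongr
      _ = _ := by ring

/-- The Mahler measure. -/
lemma mm_conj [FiniteDimensional ℚ K] {x : K} {R : ℤ[X]} (hR : R.map (Int.castRingHom ℂ) = C ((R.leadingCoeff : ℤ) : ℂ) *
    ∏ s : K →ₐ[ℚ] ℂ, (X - C (s x))) :
    mm R = |(R.leadingCoeff : ℝ)| * ∏ s : K →ₐ[ℚ] ℂ, max 1 ‖s x‖ := by
  classical
  unfold mm
  rw [hR, mahlerMeasure_mul]
  congr 1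
  · rw [mahlerMeasure_const]
    simp
  · have : ∀ t : Finset (K →ₐ[ℚ] ℂ), (∏ s ∈ t, (X - C (s x))).mahlerMeasure = ∏ s ∈ t, max 1 ‖s x‖ := by
      intro t
      induction t using Finset.induction_on with
      | empty => simp
      | insert a t ha ih => rw [prod_insert ha, prod_insert ha, mahlerMeasure_mul, ih, mahlerMeasure_X_sub_C]
    exact this _

lemma ic_conj [FiniteDimensional ℚ K] {x : K} {R : ℤ[X]} (hR : R.map (Int.castRingHom ℂ) = C ((R.leadingCoeff : ℤ) : ℂ) *
    ∏ s : K →ₐ[ℚ] ℂ, (X - C (s x))) : IC (C ((R.leadingCoeff : ℤ) : ℂ) * ∏ s : K →ₐ[ℚ] ℂ, (X - C (s x))) := by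
  rw [← hR]
  intro i
  rw [coeff_map, eq_intCast]
  exact isIntegral_algebraMap

end Pool.Agent.H446.AP5
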