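import Mathlib

/-!
# The filtration of a number field by the degree
-/

set_option autoImplicit false

namespace Pool.Agent.H446.AP5

open Finset Module

section wt

variable {σ : Type*} [Fintype σ]

/-- The weight of a monomial. -/
def wt (d : σ → ℕ) (a : σ →₀ ℕ) : ℕ := ∑ i, a i * d i

lemma wt_add (d : σ → ℕ) (a b : σ →₀ ℕ) : wt d (a + b) = wt d a + wt d b := by
  unfold wt
  rw [← Finset.sum_add_distrib]
  exact Finset.sum_congr rfl fun i _ => by rw [Finsupp.add_apply, add_mul]

lemma wt_zero (d : σ → ℕ) : wt d 0 = 0 := by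
  unfold wt
  simp

lemma le_wt {d : σ → ℕ} (hd : ∀ i, 1 ≤ d i) (a : σ →₀ ℕ) (i : σ) : a i ≤ wt d a := by
  have h1 : a i * d i ≤ wt d a := Finset.single_le_sum (f := fun i => a i * d i) (fun _ _ => Nat.zero_le _) (mem_univ i)
  have h2 := Nat.le_mul_of_pos_right (a i) (hd i)
  exact h2.trans h1

/-- The value of a monomial. -/
def mon {K : Type*} [CommRing K] (x : σ → K) (a : σ →₀ ℕ) : K := ∏ i, x i ^ a i

lemma mon_add {K : Type*} [CommRing K] (x : σ → K) (a b : σ →₀ ℕ) : mon x (a + b) = mon x a * mon x b := by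
  unfold mon
  rw [← Finset.prod_mul_distrib]
  exact Finset.prod_congr rfl fun i _ => by rw [Finsupp.add_apply, pow_add]

lemma mon_zero {K : Type*} [CommRing K] (x : σ → K) : mon x 0 = 1 := by
  unfold mon
  simp

lemma aeval_monomial_eq {R K : Type*} [CommRing R] [CommRing K] [Algebra R K] (x : σ → K) (a : σ →₀ ℕ) (c : R) :
    MvPolynomial.aeval x (MvPolynomial.monomial a c) = algebraMap R K c * mon x a := by
  rw [MvPolynomial.aeval_monomial, Finsupp.prod_fintype]
  · rfl
  · intro i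
    rw [pow_zero]

end wt

variable {σ : Type*} [Fintype σ] {K : Type*} [Field K] [Algebra ℚ K]

/-- The elements of degree at most `j`. -/
def W (d : σ → ℕ) (x : σ → K) (j : ℕ) : Submodule ℚ K := Submodule.span ℚ {y | ∃ a, wt d a ≤ j ∧ y = mon x a}

lemma W_mono (d : σ → ℕ) (x : σ → K) {i j : ℕ} (h : i ≤ j) : W d x i ≤ W d x j := by
  refine Submodule.span_mono ?_
  rintro y ⟨a, ha, rfl⟩
  exact ⟨a, ha.trans h, rfl⟩

lemma mul_mem_W (d : σ → ℕ) (x : σ → K) {i j : ℕ} {y z : K} (hy : y ∈ W d x i) (hz : z ∈ W d x j) :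
    y * z ∈ W d x (i + j) := by
  have h1 : W d x i * W d x j ≤ W d x (i + j) := by
    unfold W
    rw [Submodule.span_mul_span, Submodule.span_le]
    rintro _ ⟨y, ⟨a, ha, rfl⟩, z, ⟨b, hb, rfl⟩, rfl⟩
    refine Submodule.subset_span ⟨a + b, ?_, ?_⟩
    · rw [wt_add]
      omega
    · rw [mon_add]
  exact h1 (Submodule.mul_mem_mul hy hz)

lemma exists_mem_W (d : σ → ℕ) (x : σ → K) (f : MvPolynomial σ ℚ) :
    ∃ j, MvPolynomial.aeval x f ∈ W d x j := by
  refine ⟨∑ a ∈ f.support, wt d a, ?_⟩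
  have h1 : MvPolynomial.aeval x f = ∑ a ∈ f.support, algebraMap ℚ K (f.coeff a) * mon x a := by
    conv_lhs => rw [f.as_sum]
    rw [map_sum]
    exact Finset.sum_congr rfl fun a _ => aeval_monomial_eq x a _
  rw [h1]
  refine Submodule.sum_mem _ fun a ha => ?_
  rw [← Algebra.smul_def]
  refine Submodule.smul_mem _ _ (Submodule.subset_span ⟨a, ?_, rfl⟩)
  exact Finset.single_le_sum (f := fun a => wt d a) (fun _ _ => Nat.zero_le _) ha

variable [FiniteDimensional ℚ K]

lemma exists_W_top (d : σ → ℕ) (x : σ → K) (hx : Algebra.adjoin ℚ (Set.range x) = ⊤) : ∃ j, W d x j = ⊤ := by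
  have h1 : ∀ y : K, ∃ j, y ∈ W d x j := by
    intro y
    have h2 : y ∈ Algebra.adjoin ℚ (Set.range x) := by
      rw [hx]
      trivial
    rw [Algebra.adjoin_range_eq_range_aeval] at h2
    obtain ⟨f, hf⟩ := h2
    rw [← hf]
    exact exists_mem_W d x f
  choose g hg using h1
  let b := Module.finBasis ℚ K
  refine ⟨∑ i, g (b i), ?_⟩
  rw [eq_top_iff, ← b.span_eq, Submodule.span_le]
  rintro _ ⟨i, rfl⟩
  exact W_mono d x (Finset.single_le_sum (f := fun i => g (b i)) (fun _ _ => Nat.zero_le _) (mem_univ i)) (hg _)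

open Classical in
/-- The degree of the point. -/
noncomputable def dg (d : σ → ℕ) (x : σ → K) : ℕ := sInf {j | W d x j = ⊤}

lemma W_dg (d : σ → ℕ) (x : σ → K) (hx : Algebra.adjoin ℚ (Set.range x) = ⊤) : W d x (dg d x) = ⊤ :=
  Nat.sInf_mem (s := {j | W d x j = ⊤}) (exists_W_top d x hx)

omit [FiniteDimensional ℚ K] in
lemma W_ne_top {d : σ → ℕ} {x : σ → K} {j : ℕ} (hj : j < dg d x) : W d x j ≠ ⊤ := fun h =>
  absurd (Nat.sInf_le (s := {j | W d x j = ⊤}) h) (not_le.2 hj)

/-- **Duality.** -/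
theorem finrank_add_le {d : σ → ℕ} {x : σ → K} {i j : ℕ} (hij : i + j < dg d x) :
    finrank ℚ (W d x i) + finrank ℚ (W d x j) ≤ finrank ℚ K := by
  obtain ⟨φ, hφ, hker⟩ := Submodule.exists_le_ker_of_lt_top (W d x (i + j)) (lt_top_iff_ne_top.2 (W_ne_top hij))
  let Ψ : K →ₗ[ℚ] (Module.Dual ℚ K) :=
    { toFun := fun z => φ.comp (LinearMap.mulLeft ℚ z)
      map_add' := fun a b => by
        ext y
        simp [add_mul]
      map_smul' := fun c a => by
        ext y
        simp }
  have hΨ : Function.Injective Ψ := by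
    rw [injective_iff_map_eq_zero]
    intro z hz
    by_contra hz0
    apply hφ
    ext y
    have h1 := LinearMap.congr_fun hz (z⁻¹ * y)
    have h2 : Ψ z (z⁻¹ * y) = φ y := by
      show φ (z * (z⁻¹ * y)) = φ y
      rw [← mul_assoc, mul_inv_cancel₀ hz0, one_mul]
    rw [h2] at h1
    exact h1
  have h1 : (W d x j).map Ψ ≤ (W d x i).dualAnnihilator := by
    rintro _ ⟨z, hz, rfl⟩
    rw [Submodule.mem_dualAnnihilator]
    intro y hy
    have h2 : z * y ∈ W d x (i + j) := by
      rw [mul_comm]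
      exact mul_mem_W d x hy hz
    exact hker h2
  have h2 := Submodule.finrank_mono h1
  rw [← (Submodule.equivMapOfInjective Ψ hΨ (W d x j)).finrank_eq] at h2
  have h3 := Subspace.finrank_add_finrank_dualAnnihilator_eq (W d x i)
  omega

/-- The sum of the codimensions. -/
theorem sum_codim_ge {d : σ → ℕ} {x : σ → K} :
    finrank ℚ K * dg d x ≤ 2 * ∑ j ∈ range (dg d x), (finrank ℚ K - finrank ℚ (W d x j)) := by
  set D := dg d x with hD
  have h1 : ∑ j ∈ range D, (finrank ℚ (W d x j) + finrank ℚ (W d x (D - 1 - j))) ≤ finrank ℚ K * D := by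
    calc _ ≤ ∑ _j ∈ range D, finrank ℚ K := Finset.sum_le_sum fun j hj => by
          rw [mem_range] at hj
          exact finrank_add_le (by omega)
      _ = _ := by rw [sum_const, card_range, smul_eq_mul, mul_comm]
  have h2 : ∑ j ∈ range D, finrank ℚ (W d x (D - 1 - j)) = ∑ j ∈ range D, finrank ℚ (W d x j) :=
    Finset.sum_range_reflect (fun j => finrank ℚ (W d x j)) D
  rw [Finset.sum_add_distrib, h2] at h1
  have h3 : ∑ j ∈ range D, (finrank ℚ K - finrank ℚ (W d x j)) + ∑ j ∈ range D, finrank ℚ (W d x j) =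
      finrank ℚ K * D := by
    rw [← Finset.sum_add_distrib]
    calc _ = ∑ _j ∈ range D, finrank ℚ K := Finset.sum_congr rfl fun j _ =>
          Nat.sub_add_cancel (Submodule.finrank_le _)
      _ = _ := by rw [sum_const, card_range, smul_eq_mul, mul_comm]
  omega

/-- A basis of monomials. -/
theorem exists_basis (d : σ → ℕ) (x : σ → K) (hx : Algebra.adjoin ℚ (Set.range x) = ⊤) :
    ∃ a : Fin (finrank ℚ K) → σ →₀ ℕ, (∀ i, wt d (a i) ≤ dg d x) ∧ LinearIndependent ℚ fun i => mon x (a i) := by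
  have h0 := W_dg d x hx
  obtain ⟨f, hf1, hf2, hf3⟩ := Submodule.exists_fun_fin_finrank_span_eq ℚ {y | ∃ a, wt d a ≤ dg d x ∧ y = mon x a}
  have h1 : finrank ℚ (Submodule.span ℚ {y | ∃ a, wt d a ≤ dg d x ∧ y = mon x a}) = finrank ℚ K := by
    have : Submodule.span ℚ {y | ∃ a, wt d a ≤ dg d x ∧ y = mon x a} = ⊤ := h0
    rw [this, finrank_top]
  choose a ha1 ha2 using hf1
  refine ⟨fun i => a (Fin.cast h1.symm i), fun i => ha1 _, ?_⟩
  have h2 : (fun i => mon x (a (Fin.cast h1.symm i))) = f ∘ (Fin.cast h1.symm) := by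
    funext i
    exact (ha2 _).symm
  rw [h2]
  exact hf3.comp _ (Fin.cast_injective _)

/-- The degree of the field. -/
theorem finrank_le {d : σ → ℕ} (hd : ∀ i, 1 ≤ d i) (x : σ → K) (hx : Algebra.adjoin ℚ (Set.range x) = ⊤) :
    finrank ℚ K ≤ (dg d x + 1) ^ Fintype.card σ := by
  classical
  obtain ⟨a, ha, hli⟩ := exists_basis d x hx
  have h1 : Function.Injective fun (i : Fin (finrank ℚ K)) (s : σ) =>
      (⟨a i s, Nat.lt_succ_of_le ((le_wt hd (a i) s).trans (ha i))⟩ : Fin (dg d x + 1)) := by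
    intro i j hij
    apply hli.injective
    have h2 : a i = a j := by
      ext s
      have := congrFun hij s
      simpa using this
    simp only [h2]
  have h2 := Fintype.card_le_of_injective _ h1
  rwa [Fintype.card_fin, Fintype.card_fun, Fintype.card_fin] at h2

end Pool.Agent.H446.AP5
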