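import Pool.Agent.H446.AP5.Glob
import Pool.Agent.H446.AP5.Poly
import Pool.Agent.H446.AP4.Count

/-!
# Points of bounded height
-/

set_option autoImplicit false

namespace Pool.Agent.H446.AP5

open Finset Module Polynomial Pool.Agent.H446.AP Pool.Agent.H446.AP2
open Pool.Agent.H446.AP4 (pInt theta_prs Kap)

variable {σ : Type*} [Fintype σ]

lemma PI_of_map {p : ℕ} {K : Type*} [Field K] {y : K} (φ : K →+* ℂ) [Fact p.Prime] (h : φ y ∈ pInt p) : PI p y := by
  obtain ⟨s, hs, hi⟩ := h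
  refine ⟨s, hs, ?_⟩
  have h1 : φ.toIntAlgHom ((s : K) * y) = (s : ℂ) * φ y := by
    show φ ((s : K) * y) = _
    rw [map_mul, map_intCast]
  rw [← h1] at hi
  exact (isIntegral_algHom_iff φ.toIntAlgHom φ.injective).1 hi

lemma testM_of_testC {d : σ → ℕ} {p q : ℕ} {ω : σ → ℂ} (h : TestC d p q ω) {K : Type*} [Field K]
    (x : σ → K) (φ : K →+* ℂ) (hx : ∀ i, φ (x i) = ω i) : TestM d p q x := by
  obtain ⟨hp, hω, F, hF, hFy⟩ := h
  refine ⟨fun i => PI_of_map φ (by rw [hx]; exact hω i), F, hF, fun i => ?_⟩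
  obtain ⟨y, hy, hy'⟩ := hFy i
  have hp1 : (p : ℂ) ≠ 0 := by exact_mod_cast hp.out.ne_zero
  have hp0 : (p : K) ≠ 0 := by
    intro h0
    have := congrArg φ h0
    rw [map_natCast, map_zero] at this
    exact hp1 this
  refine ⟨MvPolynomial.aeval x (F i) / p, PI_of_map φ ?_, by field_simp⟩
  have h1 : φ (MvPolynomial.aeval x (F i)) = MvPolynomial.aeval ω (F i) := by
    have h3 : (fun s => φ (x s)) = ω := funext hx
    rw [MvPolynomial.aeval_def, MvPolynomial.hom_eval₂, MvPolynomial.aeval_def, h3]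
    congr 1
    exact RingHom.ext_int _ _
  rw [map_div₀, h1, hy', map_natCast, mul_div_cancel_left₀ _ hp1]
  exact hy

/-- The degree of the field generated by the coordinates. -/
noncomputable def fdeg (ω : σ → ℂ) : ℕ := finrank ℚ (IntermediateField.adjoin ℚ (Set.range ω))

lemma algebraic_of {z : ℂ} {P : ℤ[X]} (hP : Orb P) (h : aeval z P = 0) : IsAlgebraic ℚ z := by
  refine ⟨P.map (Int.castRingHom ℚ), fun h0 => hP.ne_zero ?_, ?_⟩
  · exact (Polynomial.map_eq_zero_iff (RingHom.injective_int _)).1 h0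
  · rw [aeval_def, eval₂_map, ← h, aeval_def]
    congr 1

lemma adjoin_top {ω : σ → ℂ} {K : Type*} [Field K] [Algebra ℚ K] (φ : K →ₐ[ℚ] ℂ)
    (hφ : ∀ z, φ z ∈ Algebra.adjoin ℚ (Set.range ω)) (x : σ → K) (hx : ∀ i, φ (x i) = ω i) :
    Algebra.adjoin ℚ (Set.range x) = ⊤ := by
  have h0 : (Algebra.adjoin ℚ (Set.range x)).map φ = Algebra.adjoin ℚ (Set.range ω) := by
    rw [← Algebra.adjoin_image, ← Set.range_comp]
    congr 2
    funext i
    exact hx i
  rw [eq_top_iff]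
  intro z _
  have h1 : φ z ∈ (Algebra.adjoin ℚ (Set.range x)).map φ := by
    rw [h0]
    exact hφ z
  obtain ⟨w, hw, hw'⟩ := h1
  have h2 : w = z := φ.injective hw'
  rw [← h2]
  exact hw

lemma mem_adj {ω : σ → ℂ} (hω : ∀ i, IsAlgebraic ℚ (ω i)) (z : IntermediateField.adjoin ℚ (Set.range ω)) :
    (z : ℂ) ∈ Algebra.adjoin ℚ (Set.range ω) := by
  rw [← IntermediateField.adjoin_toSubalgebra_of_isAlgebraic (by
      rintro _ ⟨i, rfl⟩
      exact hω i)]
  exact z.2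

/-- The least degree such that the monomials span the field generated by the coordinates. -/
noncomputable def sdeg (d : σ → ℕ) (ω : σ → ℂ) : ℕ :=
  sInf {D | ∀ z ∈ IntermediateField.adjoin ℚ (Set.range ω),
    z ∈ Submodule.span ℚ {y : ℂ | ∃ a : σ →₀ ℕ, wt d a ≤ D ∧ y = mon ω a}}

lemma dg_eq (d : σ → ℕ) (ω : σ → ℂ) {K : Type*} [Field K] [Algebra ℚ K] (φ : K →ₐ[ℚ] ℂ)
    (hφ : ∀ z, z ∈ IntermediateField.adjoin ℚ (Set.range ω) ↔ ∃ w, φ w = z) (x : σ → K) (hx : ∀ i, φ (x i) = ω i) :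
    dg d x = sdeg d ω := by
  unfold dg sdeg
  congr 1
  ext D
  have h1 : Submodule.map φ.toLinearMap (W d x D) =
      Submodule.span ℚ {y : ℂ | ∃ a : σ →₀ ℕ, wt d a ≤ D ∧ y = mon ω a} := by
    unfold W
    rw [Submodule.map_span]
    congr 1
    ext y
    constructor
    · rintro ⟨_, ⟨a, ha, rfl⟩, rfl⟩
      refine ⟨a, ha, ?_⟩
      show φ (mon x a) = _
      unfold mon
      rw [map_prod]
      exact Finset.prod_congr rfl fun i _ => by rw [map_pow, hx]
    · rintro ⟨a, ha, rfl⟩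
      refine ⟨mon x a, ⟨a, ha, rfl⟩, ?_⟩
      show φ (mon x a) = _
      unfold mon
      rw [map_prod]
      exact Finset.prod_congr rfl fun i _ => by rw [map_pow, hx]
  rw [Set.mem_ofPred_eq, Set.mem_ofPred_eq, ← h1]
  constructor
  · intro h z hz
    obtain ⟨w, rfl⟩ := (hφ z).1 hz
    exact ⟨w, by rw [h]; exact Submodule.mem_top, rfl⟩
  · intro h
    rw [eq_top_iff]
    intro w _
    obtain ⟨v, hv, hv'⟩ := h (φ w) ((hφ _).2 ⟨w, rfl⟩)
    have h2 : v = w := φ.injective hv'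
    rw [← h2]
    exact hv

lemma fdeg_le {d : σ → ℕ} (hd : ∀ i, 1 ≤ d i) {ω : σ → ℂ} (hω : ∀ i, IsAlgebraic ℚ (ω i)) :
    fdeg ω ≤ (sdeg d ω + 1) ^ Fintype.card σ := by
  have hfd : FiniteDimensional ℚ (IntermediateField.adjoin ℚ (Set.range ω)) :=
    IntermediateField.finiteDimensional_adjoin (by
      rintro _ ⟨i, rfl⟩
      exact (hω i).isIntegral)
  let ξ : σ → IntermediateField.adjoin ℚ (Set.range ω) :=
    fun i => ⟨ω i, IntermediateField.subset_adjoin _ _ ⟨i, rfl⟩⟩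
  have htop := adjoin_top (algebraMap (IntermediateField.adjoin ℚ (Set.range ω)) ℂ).toRatAlgHom
    (fun z => mem_adj hω z) ξ fun i => rfl
  rw [← dg_eq d ω (algebraMap (IntermediateField.adjoin ℚ (Set.range ω)) ℂ).toRatAlgHom (fun z =>
    ⟨fun h => ⟨⟨z, h⟩, rfl⟩, by rintro ⟨w, rfl⟩; exact w.2⟩) ξ fun i => rfl]
  exact finrank_le hd ξ htop

/-- **One point of large degree.** -/
theorem single5 {d : σ → ℕ} {n : ℕ} (hn : 0 < n) (hd : ∀ i, 1 ≤ d i ∧ d i ≤ n) :
    ∃ C : ℝ, 0 ≤ C ∧ ∀ (G : ℕ → Prop) (y x H : ℝ), 1 ≤ y → y ≤ x → 0 ≤ H → ∀ (ω : σ → ℂ) (P : σ → ℤ[X]),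
      (∀ i, Orb (P i) ∧ Real.log (mm (P i)) ≤ (P i).natDegree * H ∧ aeval (ω i) (P i) = 0) →
      (∀ p ∈ prs y x, G p → TestC d p p ω) → x ≤ sdeg d ω →
        ∀ B : ℝ, ∑ p ∈ prs y x, Real.log p / p ≤
          (∑ᶠ p ∈ {p | p ∈ prs y x ∧ G p}, Real.log (p : ℕ) / (p : ℕ)) + B →
            Real.log (x / y) - 2 * n * Fintype.card σ * H - C ≤ B := by
  classical
  obtain ⟨c, hc0, hc⟩ := mertens
  refine ⟨2 * c + 6 * n * Fintype.card σ, by positivity, fun G y x H hy hyx hH ω P hP hT hN B hB => ?_⟩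
  have hωalg : ∀ i, IsAlgebraic ℚ (ω i) := fun i => algebraic_of (hP i).1 (hP i).2.2
  let K := IntermediateField.adjoin ℚ (Set.range ω)
  have hfd : FiniteDimensional ℚ K := IntermediateField.finiteDimensional_adjoin (by
    rintro _ ⟨i, rfl⟩
    exact (hωalg i).isIntegral)
  let ξ : σ → K := fun i => ⟨ω i, IntermediateField.subset_adjoin _ _ ⟨i, rfl⟩⟩
  have hξ : ∀ i, (ξ i : ℂ) = ω i := fun i => rfl
  have htop := adjoin_top (algebraMap K ℂ).toRatAlgHom (fun z => mem_adj hωalg z) ξ hξ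
  set m := Fintype.card σ with hm
  set D := dg d ξ with hD
  set N := finrank ℚ K with hNdef
  have hN1 : (0 : ℝ) < N := by exact_mod_cast finrank_pos (R := ℚ) (M := K)
  have hNle : (N : ℝ) ≤ ((D : ℝ) + 1) ^ m := by
    have := finrank_le (fun i => (hd i).1) ξ htop
    exact_mod_cast this
  have hxD : x ≤ D := by
    rw [hD, dg_eq d ω (algebraMap K ℂ).toRatAlgHom (fun z =>
      ⟨fun h => ⟨⟨z, h⟩, rfl⟩, by rintro ⟨w, rfl⟩; exact w.2⟩) ξ hξ]
    exact hN
  have hD1 : (1 : ℝ) ≤ D := by linarith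
  set Q := (prs y x).filter (fun p => G p) with hQ
  have hcore := core5 hn one_pos hd htop (H := H) (P := P) (fun i => ⟨(hP i).1, (hP i).2.1, by
    have h1 := (hP i).2.2
    rw [← hξ i] at h1
    have h2 : (aeval ((ξ i : K) : ℂ) (P i)) = ((aeval (ξ i) (P i) : K) : ℂ) := by
      rw [aeval_def, aeval_def]
      show _ = (algebraMap K ℂ) _
      rw [hom_eval₂]
      congr 1
    rw [h2] at h1
    exact_mod_cast h1⟩) Q (fun p hp => by
      rw [one_mul]
      obtain ⟨hp1, hp2⟩ := mem_filter.1 hp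
      have h1 := hT p hp1 hp2
      exact ⟨h1.1.out, testM_of_testC h1 ξ (algebraMap K ℂ) hξ⟩)
  have h1 := (sum_prs hc hy hyx).1
  have h2 : ∑ᶠ p ∈ {p | p ∈ prs y x ∧ G p}, Real.log (p : ℕ) / (p : ℕ) = ∑ p ∈ Q, Real.log p / p := by
    rw [finsum_mem_eq_sum_of_inter_support_eq (t := Q)]
    congr 1
    ext p
    simp [hQ]
  rw [h2] at hB
  have hlogN : Real.log N ≤ m * D := by
    have h3 := Real.log_le_log hN1 hNle
    rw [Real.log_pow] at h3
    have h4 := Real.log_le_sub_one_of_pos (by positivity : (0 : ℝ) < (D : ℝ) + 1)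
    have h5 : (m : ℝ) * Real.log ((D : ℝ) + 1) ≤ m * D := by
      refine mul_le_mul_of_nonneg_left (by linarith) (Nat.cast_nonneg m)
    linarith
  have hθ : ∑ p ∈ Q, Real.log p ≤ 2 * D := by
    refine ((Finset.sum_le_sum_of_subset_of_nonneg (filter_subset _ _) fun p _ _ => logp_nonneg p).trans
      (theta_prs (by linarith))).trans (by linarith)
  have hsum : ∑ p ∈ Q, Real.log p * ((D : ℝ) / (2 * n * ((1 : ℕ) * p)) - m) =
      (D : ℝ) / (2 * n) * ∑ p ∈ Q, Real.log p / p - m * ∑ p ∈ Q, Real.log p := by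
    rw [Finset.mul_sum, Finset.mul_sum, ← Finset.sum_sub_distrib]
    refine Finset.sum_congr rfl fun p hp => ?_
    have hp0 : (p : ℝ) ≠ 0 := by
      have := (hT p (mem_filter.1 hp).1 (mem_filter.1 hp).2).1.out.ne_zero
      exact_mod_cast this
    have hn0 : (n : ℝ) ≠ 0 := by exact_mod_cast hn.ne'
    push_cast
    field_simp
  rw [hsum] at hcore
  have hn0 : (0 : ℝ) < n := by exact_mod_cast hn
  have h6 : (D : ℝ) / (2 * n) * ∑ p ∈ Q, Real.log p / p ≤ (D : ℝ) / (2 * n) * (2 * n * m * H + 6 * n * m) := by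
    have h7 : (m : ℝ) * ∑ p ∈ Q, Real.log p ≤ m * (2 * D) := mul_le_mul_of_nonneg_left hθ (Nat.cast_nonneg m)
    have h8 : (D : ℝ) / (2 * n) * (2 * n * m * H + 6 * n * m) = D * (m * H) + 3 * m * D := by
      field_simp
      ring
    rw [h8]
    linarith
  have h9 := le_of_mul_le_mul_left h6 (by positivity)
  linarith

open Classical in
/-- The sum of `log p / p` over the bad primes. -/
noncomputable def bad5 (G : ℕ → Prop) (y x : ℝ) : ℝ := ∑ p ∈ (prs y x).filter (fun p => ¬ G p), Real.log p / p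

theorem single6 {d : σ → ℕ} {n : ℕ} (hn : 0 < n) (hd : ∀ i, 1 ≤ d i ∧ d i ≤ n) :
    ∃ C : ℝ, 0 ≤ C ∧ ∀ (G : ℕ → Prop) (y x H : ℝ), 1 ≤ y → y ≤ x → 0 ≤ H → ∀ (ω : σ → ℂ) (P : σ → ℤ[X]),
      (∀ i, Orb (P i) ∧ Real.log (mm (P i)) ≤ (P i).natDegree * H ∧ aeval (ω i) (P i) = 0) →
      (∀ p ∈ prs y x, G p → TestC d p p ω) → x ≤ sdeg d ω →
        Real.log (x / y) - 2 * n * Fintype.card σ * H - C ≤ bad5 G y x := by
  classical
  obtain ⟨C, hC0, hC⟩ := single5 hn hd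
  refine ⟨C, hC0, fun G y x H hy hyx hH ω P hP hT hN => hC G y x H hy hyx hH ω P hP hT hN _ ?_⟩
  have h2 : ∑ᶠ p ∈ {p | p ∈ prs y x ∧ G p}, Real.log (p : ℕ) / (p : ℕ) =
      ∑ p ∈ (prs y x).filter (fun p => G p), Real.log p / p := by
    rw [finsum_mem_eq_sum_of_inter_support_eq (t := (prs y x).filter (fun p => G p))]
    congr 1
    ext p
    simp
  rw [h2]
  exact (Finset.sum_filter_add_sum_filter_not _ _ _).symm.le

/-- The points of bounded height with few bad primes. -/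
def Few5 (G : ℕ → (σ → ℂ) → Prop) (β M y x H : ℝ) : Set (σ → ℂ) :=
  {ω | (∃ P : σ → ℤ[X], ∀ i, Orb (P i) ∧ Real.log (mm (P i)) ≤ (P i).natDegree * H ∧ aeval (ω i) (P i) = 0) ∧
    bad5 (fun p => G p ω) y x ≤ (1 - β) * Real.log (x / y) + M}

lemma natDegree_le_fdeg {ω : σ → ℂ} (hω : ∀ i, IsAlgebraic ℚ (ω i)) {i : σ} {P : ℤ[X]} (hP : Orb P)
    (h : aeval (ω i) P = 0) : P.natDegree ≤ fdeg ω := by
  have hfd : FiniteDimensional ℚ (IntermediateField.adjoin ℚ (Set.range ω)) :=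
    IntermediateField.finiteDimensional_adjoin (by
      rintro _ ⟨i, rfl⟩
      exact (hω i).isIntegral)
  have h1 : aeval (⟨ω i, IntermediateField.subset_adjoin _ _ ⟨i, rfl⟩⟩ : IntermediateField.adjoin ℚ (Set.range ω)) P = 0 := by
    apply (algebraMap (IntermediateField.adjoin ℚ (Set.range ω)) ℂ).injective
    rw [map_zero, ← h, aeval_def, aeval_def, hom_eval₂]
    congr 1
  obtain ⟨R, hR0, hR, -⟩ := exists_conj hP (H := Real.log (mm P)) (by
    have h2 : (1 : ℝ) ≤ P.natDegree := by exact_mod_cast hP.2.1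
    have h3 : 0 ≤ Real.log (mm P) := Real.log_nonneg (one_le_mm hP.ne_zero)
    nlinarith) h1
  have h2 := congrArg (fun q : ℚ[X] => q.natDegree) (map_eq_minpoly hP h1)
  rw [natDegree_map_eq_of_injective (RingHom.injective_int _)] at h2
  rw [h2]
  refine (natDegree_C_mul_le _ _).trans ?_
  exact minpoly.natDegree_le _

theorem finite5 {d : σ → ℕ} {n : ℕ} (hn : 0 < n) (hd : ∀ i, 1 ≤ d i ∧ d i ≤ n) (hσ : 0 < Fintype.card σ)
    {β : ℝ} (hβ : 0 < β) (M : ℝ) : ∃ C : ℝ, 1 ≤ C ∧ ∀ (G : ℕ → (σ → ℂ) → Prop) (y H x : ℝ), 1 ≤ y → 0 ≤ H →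
      x = C * y * Real.exp (2 * n * Fintype.card σ * H / β) →
        (∀ p ∈ prs y x, ∀ ω, G p ω → TestC d p p ω) →
          (Few5 G β M y x H).Finite ∧ ∀ ω ∈ Few5 G β M y x H, (fdeg ω : ℝ) < (x + 1) ^ Fintype.card σ := by
  classical
  obtain ⟨C₁, hC₁, hC⟩ := single6 hn hd
  refine ⟨Real.exp ((C₁ + |M| + 1) / β), Real.one_le_exp (by positivity), fun G y H x hy hH hx hT => ?_⟩
  have hxy : y ≤ x := by
    rw [hx, mul_comm _ y, mul_assoc]
    have h1 : 1 ≤ Real.exp ((C₁ + |M| + 1) / β) := Real.one_le_exp (by positivity)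
    have h2 : 1 ≤ Real.exp (2 * n * Fintype.card σ * H / β) := Real.one_le_exp (by positivity)
    have h3 : 1 ≤ Real.exp ((C₁ + |M| + 1) / β) * Real.exp (2 * n * Fintype.card σ * H / β) :=
      one_le_mul_of_one_le_of_one_le h1 h2
    nlinarith
  have hlog : Real.log (x / y) = (C₁ + |M| + 1) / β + 2 * n * Fintype.card σ * H / β := by
    have h1 : x / y = Real.exp ((C₁ + |M| + 1) / β + 2 * n * Fintype.card σ * H / β) := by
      rw [hx, Real.exp_add]
      field_simp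
    rw [h1, Real.log_exp]
  have hdeg : ∀ ω ∈ Few5 G β M y x H, (fdeg ω : ℝ) < (x + 1) ^ Fintype.card σ := by
    rintro ω ⟨⟨P, hP⟩, hbad⟩
    by_contra hcon
    rw [not_lt] at hcon
    have hω : ∀ i, IsAlgebraic ℚ (ω i) := fun i => algebraic_of (hP i).1 (hP i).2.2
    have hcon' : x ≤ sdeg d ω := by
      have h0 : (fdeg ω : ℝ) ≤ ((sdeg d ω : ℝ) + 1) ^ Fintype.card σ := by
        exact_mod_cast fdeg_le (fun i => (hd i).1) hω
      have h2 := (pow_le_pow_iff_left₀ (by linarith) (by positivity) hσ.ne').1 (hcon.trans h0)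
      linarith
    have h1 := hC (fun p => G p ω) y x H hy hxy hH ω P hP (fun p hp hg => hT p hp ω hg) hcon'
    have h2 := h1.trans hbad
    have h3 : β * Real.log (x / y) ≤ 2 * n * Fintype.card σ * H + C₁ + M := by linarith
    rw [hlog, ← add_div, mul_div_cancel₀ _ hβ.ne'] at h3
    have h4 := le_abs_self M
    linarith
  refine ⟨?_, hdeg⟩
  obtain ⟨d₀, hd₀⟩ : ∃ d₀ : ℕ, (x + 1) ^ Fintype.card σ ≤ d₀ := exists_nat_ge _
  have hA := Polynomial.finite_mahlerMeasure_le d₀ (Real.toNNReal (Real.exp (d₀ * H)))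
  set A := {p : ℤ[X] | p.natDegree ≤ d₀ ∧ (p.map (Int.castRingHom ℂ)).mahlerMeasure ≤
    ((Real.toNNReal (Real.exp (d₀ * H)) : NNReal) : ℝ)} with hAdef
  have hR : (⋃ P ∈ A, {z : ℂ | P ≠ 0 ∧ aeval z P = 0}).Finite := by
    refine hA.biUnion fun P _ => ?_
    by_cases hP : P = 0
    · have h1 : {z : ℂ | P ≠ 0 ∧ aeval z P = 0} = ∅ := by
        ext z
        simp [hP]
      rw [h1]
      exact Set.finite_empty
    · refine (P.aroots ℂ).toFinset.finite_toSet.subset ?_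
      rintro z ⟨h1, h2⟩
      rw [Finset.mem_coe, Multiset.mem_toFinset, mem_aroots]
      exact ⟨h1, h2⟩
  refine (Set.Finite.pi' fun _ : σ => hR).subset ?_
  intro ω hω i
  have h1 := hdeg ω hω
  obtain ⟨⟨P, hP⟩, -⟩ := hω
  have h2 := natDegree_le_fdeg (fun i => algebraic_of (hP i).1 (hP i).2.2) (hP i).1 (hP i).2.2
  have h3 : (P i).natDegree ≤ d₀ := by
    have : ((P i).natDegree : ℝ) ≤ d₀ := by
      have h4 : ((P i).natDegree : ℝ) ≤ fdeg ω := by exact_mod_cast h2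
      linarith
    exact_mod_cast this
  rw [Set.mem_iUnion₂]
  refine ⟨P i, ⟨h3, ?_⟩, (hP i).1.ne_zero, (hP i).2.2⟩
  rw [Real.coe_toNNReal _ (Real.exp_pos _).le]
  have h5 := (hP i).2.1
  have h6 := one_le_mm (hP i).1.ne_zero
  have h7 : mm (P i) = Real.exp (Real.log (mm (P i))) := (Real.exp_log (by linarith)).symm
  show mm (P i) ≤ _
  rw [h7]
  refine Real.exp_le_exp.2 (h5.trans ?_)
  have h8 : ((P i).natDegree : ℝ) ≤ d₀ := by exact_mod_cast h3
  exact mul_le_mul_of_nonneg_right h8 hH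

/-- A matrix that vanishes modulo `p` is nilpotent modulo `p`. -/
lemma nilp_of_vanish {n p : ℕ} [Fact p.Prime] {M : Matrix (Fin n) (Fin n) ℂ[X]}
    (hM : ∀ i j l, ∃ y ∈ pInt p, (M i j).coeff l = p * y) (j : Fin n) (l : ℕ) :
    ∃ y ∈ pInt p, (M.charpoly.coeff j).coeff l = p * y := by
  have h1 : ∀ i j, ∃ f : (pInt p)[X], f.map (pInt p).subtype = M i j ∧
      f.map (Ideal.Quotient.mk (Ideal.span {((p : ℕ) : pInt p)})) = 0 := by
    intro i j
    choose y hy hy' using hM i j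
    refine ⟨∑ l ∈ (M i j).support, monomial l (((p : ℕ) : pInt p) * ⟨y l, hy l⟩), ?_, ?_⟩
    · rw [Polynomial.map_sum]
      conv_rhs => rw [(M i j).as_sum_support]
      refine Finset.sum_congr rfl fun l _ => ?_
      rw [map_monomial, hy' l]
      rfl
    · rw [Polynomial.map_sum]
      refine Finset.sum_eq_zero fun l _ => ?_
      rw [map_monomial]
      have h2 : Ideal.Quotient.mk (Ideal.span {((p : ℕ) : pInt p)}) (((p : ℕ) : pInt p) * ⟨y l, hy l⟩) = 0 := by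
        rw [Ideal.Quotient.eq_zero_iff_mem]
        exact Ideal.mul_mem_right _ _ (Ideal.mem_span_singleton_self _)
      rw [h2, map_zero]
  choose f hf hf' using h1
  have h2 : (Matrix.of f).map (mapRingHom (pInt p).subtype) = M := by
    ext1 i j
    exact hf i j
  obtain ⟨ψ, hψ⟩ : ∃ ψ : pInt p →+* Kap p, ψ = Ideal.Quotient.mk (Ideal.span {((p : ℕ) : pInt p)}) := ⟨_, rfl⟩
  have h3 : (Matrix.of f).map (mapRingHom ψ) = 0 := by
    ext1 i j
    rw [hψ]
    exact hf' i j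
  have h5 : ψ (((Matrix.of f).charpoly.coeff j).coeff l) = 0 := by
    have h4 : ψ (((Matrix.of f).charpoly.coeff j).coeff l) =
        ((((Matrix.of f).map (mapRingHom ψ)).charpoly).coeff j).coeff l := by
      rw [Matrix.charpoly_map, coeff_map, coe_mapRingHom, coeff_map]
    rw [h4, h3, Matrix.charpoly_zero, coeff_X_pow, Fintype.card_fin, if_neg (Nat.ne_of_lt j.2), coeff_zero]
  rw [hψ] at h5
  obtain ⟨y, hy, hy'⟩ := (Pool.Agent.H446.AP4.mk_eq_zero_iff _).1 h5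
  refine ⟨y, hy, ?_⟩
  rw [← hy', ← h2, Matrix.charpoly_map, coeff_map, coe_mapRingHom, coeff_map]
  rfl

end Pool.Agent.H446.AP5
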