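import Pool.Agent.H446.AP5.Padic
import Pool.Agent.H446.AP5.Emb

/-!
# The core inequality for points of affine space
-/

set_option autoImplicit false

namespace Pool.Agent.H446.AP5

open Finset Module Polynomial Pool.Agent.H446.AP Pool.Agent.H446.AP4

variable {σ : Type*} [Fintype σ] {K : Type*} [Field K] [Algebra ℚ K] [FiniteDimensional ℚ K]

/-- The integrality of the determinant. -/
lemma isIntegral_det {d : σ → ℕ} (hd : ∀ i, 1 ≤ d i) {x : σ → K} {R : σ → ℤ[X]}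
    (hR : ∀ i, (R i).map (Int.castRingHom ℂ) =
      C (((R i).leadingCoeff : ℤ) : ℂ) * ∏ s : K →ₐ[ℚ] ℂ, (X - C (s (x i))))
    (e : Fin (finrank ℚ K) ≃ (K →ₐ[ℚ] ℂ)) {a : Fin (finrank ℚ K) → σ →₀ ℕ} {D : ℕ} (ha : ∀ i, wt d (a i) ≤ D) :
    IsIntegral ℤ ((∏ i, (((R i).leadingCoeff : ℤ) : ℂ)) ^ D * Dt e (fun i => mon x (a i))) := by
  classical
  unfold Dt
  rw [Matrix.det_apply', Finset.mul_sum]
  refine IsIntegral.sum _ fun π _ => ?_
  have h1 : (∏ i, (((R i).leadingCoeff : ℤ) : ℂ)) ^ D * (((Equiv.Perm.sign π : ℤ) : ℂ) *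
      ∏ s, (Matrix.of fun i s => (e s) (mon x (a i))) (π s) s) =
      ((Equiv.Perm.sign π : ℤ) : ℂ) *
        ∏ i, ((((R i).leadingCoeff : ℤ) : ℂ) ^ D * ∏ s, (e s (x i)) ^ (a (π s) i)) := by
    rw [Finset.prod_mul_distrib, Finset.prod_pow, Finset.prod_comm]
    have h2 : ∏ s, (Matrix.of fun i s => (e s) (mon x (a i))) (π s) s = ∏ s, ∏ i, (e s (x i)) ^ (a (π s) i) := by
      refine Finset.prod_congr rfl fun s _ => ?_
      rw [Matrix.of_apply, mon, map_prod]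
      exact Finset.prod_congr rfl fun i _ => map_pow _ _ _
    rw [h2]
    ring
  rw [h1]
  refine IsIntegral.mul isIntegral_algebraMap (IsIntegral.prod _ fun i _ => ?_)
  refine isIntegral_pow_mul_prod (α := fun s : Fin (finrank ℚ K) => e s (x i)) ?_ D (fun s => a (π s) i)
    fun s => (le_wt hd _ i).trans (ha _)
  have h3 : ∏ s : Fin (finrank ℚ K), (X - C (e s (x i))) = ∏ s : K →ₐ[ℚ] ℂ, (X - C (s (x i))) :=
    Fintype.prod_equiv e _ _ fun s => rfl
  rw [h3]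
  exact ic_conj (hR i)

/-- The absolute value of the determinant. -/
lemma norm_det_le {d : σ → ℕ} (hd : ∀ i, 1 ≤ d i) {x : σ → K} {R : σ → ℤ[X]}
    (hR : ∀ i, (R i).map (Int.castRingHom ℂ) =
      C (((R i).leadingCoeff : ℤ) : ℂ) * ∏ s : K →ₐ[ℚ] ℂ, (X - C (s (x i))))
    (e : Fin (finrank ℚ K) ≃ (K →ₐ[ℚ] ℂ)) {a : Fin (finrank ℚ K) → σ →₀ ℕ} {D : ℕ} (ha : ∀ i, wt d (a i) ≤ D) :
    ‖(∏ i, (((R i).leadingCoeff : ℤ) : ℂ)) ^ D * Dt e (fun i => mon x (a i))‖ ≤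
      (finrank ℚ K).factorial * (∏ i, mm (R i)) ^ D := by
  classical
  have h1 : ‖Dt e (fun i => mon x (a i))‖ ≤
      (finrank ℚ K).factorial * (∏ i, ∏ s : K →ₐ[ℚ] ℂ, max 1 ‖s (x i)‖) ^ D := by
    unfold Dt
    rw [Matrix.det_apply']
    refine (norm_sum_le _ _).trans ?_
    have h2 : ∀ π : Equiv.Perm (Fin (finrank ℚ K)), ‖((Equiv.Perm.sign π : ℤ) : ℂ) *
        ∏ s, (Matrix.of fun i s => (e s) (mon x (a i))) (π s) s‖ ≤
        (∏ i, ∏ s : K →ₐ[ℚ] ℂ, max 1 ‖s (x i)‖) ^ D := by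
      intro π
      rw [norm_mul]
      have h3 : ‖((Equiv.Perm.sign π : ℤ) : ℂ)‖ = 1 := by
        rcases Int.units_eq_one_or (Equiv.Perm.sign π) with h | h <;> simp [h]
      rw [h3, one_mul, norm_prod]
      have h4 : ∏ s, ‖(Matrix.of fun i s => (e s) (mon x (a i))) (π s) s‖ ≤
          ∏ s, ∏ i, (max 1 ‖e s (x i)‖) ^ D := by
        refine Finset.prod_le_prod (fun _ _ => norm_nonneg _) fun s _ => ?_
        rw [Matrix.of_apply, mon, map_prod, norm_prod]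
        refine Finset.prod_le_prod (fun _ _ => norm_nonneg _) fun i _ => ?_
        rw [map_pow, norm_pow]
        calc ‖e s (x i)‖ ^ (a (π s) i) ≤ (max 1 ‖e s (x i)‖) ^ (a (π s) i) :=
              pow_le_pow_left₀ (norm_nonneg _) (le_max_right _ _) _
          _ ≤ _ := pow_le_pow_right₀ (le_max_left _ _) ((le_wt hd _ i).trans (ha _))
      refine h4.trans (le_of_eq ?_)
      rw [Finset.prod_comm, ← Finset.prod_pow]
      refine Finset.prod_congr rfl fun i _ => ?_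
      rw [Finset.prod_pow]
      congr 1
      exact Fintype.prod_equiv e _ _ fun s => rfl
    calc _ ≤ ∑ _π : Equiv.Perm (Fin (finrank ℚ K)), (∏ i, ∏ s : K →ₐ[ℚ] ℂ, max 1 ‖s (x i)‖) ^ D :=
          Finset.sum_le_sum fun π _ => h2 π
      _ = _ := by rw [Finset.sum_const, card_univ, Fintype.card_perm, Fintype.card_fin, nsmul_eq_mul]
  have h2 : ∏ i, mm (R i) = ‖∏ i, (((R i).leadingCoeff : ℤ) : ℂ)‖ * ∏ i, ∏ s : K →ₐ[ℚ] ℂ, max 1 ‖s (x i)‖ := by
    rw [norm_prod, ← Finset.prod_mul_distrib]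
    refine Finset.prod_congr rfl fun i _ => ?_
    rw [mm_conj (hR i), Complex.norm_intCast]
  rw [norm_mul, norm_pow, h2, mul_pow]
  have h3 : 0 ≤ ‖∏ i, (((R i).leadingCoeff : ℤ) : ℂ)‖ ^ D := by positivity
  nlinarith [mul_le_mul_of_nonneg_left h1 h3]

/-- **The core inequality.** -/
theorem core5 {d : σ → ℕ} {n c : ℕ} (hn : 0 < n) (hc : 0 < c) (hd : ∀ i, 1 ≤ d i ∧ d i ≤ n) {x : σ → K}
    (hx : Algebra.adjoin ℚ (Set.range x) = ⊤) {H : ℝ} {P : σ → ℤ[X]}
    (hP : ∀ i, Orb (P i) ∧ Real.log (mm (P i)) ≤ (P i).natDegree * H ∧ aeval (x i) (P i) = 0)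
    (Q : Finset ℕ) (hQ : ∀ p ∈ Q, p.Prime ∧ TestM d p (c * p) x) :
    ∑ p ∈ Q, Real.log p * ((dg d x : ℝ) / (2 * n * (c * p)) - Fintype.card σ) ≤
      Real.log (finrank ℚ K) + dg d x * (Fintype.card σ * H) := by
  classical
  choose R hR0 hR hRH using fun i => exists_conj (hP i).1 (hP i).2.1 (hP i).2.2
  obtain ⟨a, ha, hli⟩ := exists_basis d x hx
  have hne : Nonempty (Fin (finrank ℚ K)) := ⟨⟨0, finrank_pos⟩⟩
  let b := basisOfLinearIndependentOfCardEqFinrank hli (by rw [Fintype.card_fin])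
  have hb : ⇑b = fun i => mon x (a i) := coe_basisOfLinearIndependentOfCardEqFinrank _ _
  have e : Fin (finrank ℚ K) ≃ (K →ₐ[ℚ] ℂ) := (Fintype.equivFinOfCardEq (AlgHom.card ℚ K ℂ)).symm
  set D := dg d x with hD
  have hN0 : 0 < finrank ℚ K := finrank_pos
  have hN0' : (0 : ℝ) < finrank ℚ K := by exact_mod_cast hN0
  have hdisc := Algebra.discr_eq_det_embeddingsMatrixReindex_pow_two ℚ ℂ (⇑b) e
  have hdet : (Algebra.embeddingsMatrixReindex ℚ ℂ (⇑b) e).det = Dt e (fun i => mon x (a i)) := by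
    unfold Dt
    rw [← hb]
    rfl
  rw [hdet] at hdisc
  have hd0 := Algebra.discr_not_zero_of_basis ℚ b
  set B : ℤ := ∏ i, (R i).leadingCoeff with hB
  have hB0 : B ≠ 0 := Finset.prod_ne_zero_iff.2 fun i _ => leadingCoeff_ne_zero.2 (hR0 i)
  have hBC : (∏ i, (((R i).leadingCoeff : ℤ) : ℂ)) = (B : ℂ) := by
    rw [hB]
    push_cast
    rfl
  have hint := isIntegral_det (fun i => (hd i).1) hR e ha
  have hnorm := norm_det_le (fun i => (hd i).1) hR e ha
  rw [hBC] at hint hnorm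
  -- the integer
  have h1 : algebraMap ℚ ℂ ((B : ℚ) ^ (2 * D) * Algebra.discr ℚ ⇑b) =
      ((B : ℂ) ^ D * Dt e (fun i => mon x (a i))) ^ 2 := by
    rw [map_mul, hdisc, map_pow, map_intCast]
    ring
  have h2 : IsIntegral ℤ ((B : ℚ) ^ (2 * D) * Algebra.discr ℚ ⇑b) := by
    have := hint.pow 2
    rw [← h1] at this
    exact (isIntegral_algebraMap_iff (algebraMap ℚ ℂ).injective).1 this
  obtain ⟨E, hE⟩ := IsIntegrallyClosed.isIntegral_iff.1 h2
  rw [eq_intCast] at hE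
  have hE0 : E ≠ 0 := by
    intro h
    rw [h, Int.cast_zero] at hE
    have h3 : (B : ℚ) ^ (2 * D) ≠ 0 := pow_ne_zero _ (by exact_mod_cast hB0)
    exact (mul_ne_zero h3 hd0) hE.symm
  have hEC : (E : ℂ) = ((B : ℂ) ^ D * Dt e (fun i => mon x (a i))) ^ 2 := by
    rw [← h1, ← hE, map_intCast]
  -- the prime factors
  have h3 : ∀ p ∈ Q, ∃ k : ℕ, ((∑ j ∈ range D, (finrank ℚ K - finrank ℚ (W d x j)) : ℕ) : ℝ) / (n * (c * p : ℕ)) -
      Fintype.card σ * finrank ℚ K ≤ k ∧ (p : ℤ) ^ (2 * k) ∣ E := by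
    intro p hp
    have hfact : Fact p.Prime := ⟨(hQ p hp).1⟩
    obtain ⟨k, hk, z, hz, hdz⟩ := det_mem hn (fun i => (hd i).2) (q := c * p) (Nat.mul_pos hc (hQ p hp).1.pos)
      (hQ p hp).2 e a
    refine ⟨k, hk, pow_dvd_of_mem (z := ((B : ℂ) ^ D * z) ^ 2) ?_ ?_⟩
    · exact (pInt p).pow_mem ((pInt p).mul_mem ((pInt p).pow_mem (intCast_mem _ _) _) hz) _
    · rw [hEC, hdz]
      ring
  choose! k hk hkE using h3
  have h4 := sum_log_le Q (fun p hp => (hQ p hp).1) (fun p => 2 * k p) E hE0 hkE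
  -- the upper bound
  have hmm1 : ∀ i, 1 ≤ mm (R i) := fun i => one_le_mm (hR0 i)
  have hprod1 : 0 < ∏ i, mm (R i) := Finset.prod_pos fun i _ => lt_of_lt_of_le one_pos (hmm1 i)
  have h5 : Real.log |(E : ℝ)| ≤ 2 * (finrank ℚ K * Real.log (finrank ℚ K)) + 2 * (D * (Fintype.card σ * (finrank ℚ K * H))) := by
    have h6 : |(E : ℝ)| ≤ (((finrank ℚ K).factorial : ℝ) * (∏ i, mm (R i)) ^ D) ^ 2 := by
      have h7 : |(E : ℝ)| = ‖(E : ℂ)‖ := by rw [Complex.norm_intCast]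
      rw [h7, hEC, norm_pow]
      exact pow_le_pow_left₀ (norm_nonneg _) hnorm 2
    have hE0' : (0 : ℝ) < |(E : ℝ)| := by
      rw [abs_pos]
      exact_mod_cast hE0
    have hfac : (0 : ℝ) < (finrank ℚ K).factorial := by exact_mod_cast (finrank ℚ K).factorial_pos
    have h7 := Real.log_le_log hE0' h6
    rw [Real.log_pow, Real.log_mul hfac.ne' (pow_ne_zero _ hprod1.ne'), Real.log_pow,
      Real.log_prod fun i _ => (lt_of_lt_of_le one_pos (hmm1 i)).ne'] at h7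
    have h8 : Real.log ((finrank ℚ K).factorial : ℝ) ≤ finrank ℚ K * Real.log (finrank ℚ K) := by
      rw [← Real.log_pow]
      refine Real.log_le_log hfac ?_
      exact_mod_cast Nat.factorial_le_pow (finrank ℚ K)
    have h9 : ∑ i, Real.log (mm (R i)) ≤ Fintype.card σ * (finrank ℚ K * H) := by
      calc _ ≤ ∑ _i : σ, (finrank ℚ K : ℝ) * H := Finset.sum_le_sum fun i _ => hRH i
        _ = _ := by rw [Finset.sum_const, card_univ, nsmul_eq_mul]
    have h10 : (D : ℝ) * ∑ i, Real.log (mm (R i)) ≤ D * (Fintype.card σ * (finrank ℚ K * H)) := by gcongr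
    push_cast at h7
    linarith
  -- the lower bound
  have h6 : (finrank ℚ K : ℝ) * D / 2 ≤ ((∑ j ∈ range D, (finrank ℚ K - finrank ℚ (W d x j)) : ℕ) : ℝ) := by
    have h7 := sum_codim_ge (d := d) (x := x)
    rw [← hD] at h7
    have h8 : ((finrank ℚ K * D : ℕ) : ℝ) ≤ ((2 * ∑ j ∈ range D, (finrank ℚ K - finrank ℚ (W d x j)) : ℕ) : ℝ) := Nat.cast_le.2 h7
    push_cast at h8 ⊢
    linarith
  have h7 : ∀ p ∈ Q, Real.log p * (2 * (finrank ℚ K * ((D : ℝ) / (2 * n * (c * p)) - Fintype.card σ))) ≤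
      Real.log p * ((2 * k p : ℕ) : ℝ) := by
    intro p hp
    refine mul_le_mul_of_nonneg_left ?_ (logp_nonneg p)
    have hp0 : (0 : ℝ) < p := by exact_mod_cast (hQ p hp).1.pos
    have hn' : (0 : ℝ) < n := by exact_mod_cast hn
    have hc' : (0 : ℝ) < c := by exact_mod_cast hc
    have h8 := hk p hp
    have h9 : (finrank ℚ K : ℝ) * ((D : ℝ) / (2 * n * (c * p))) ≤
        ((∑ j ∈ range D, (finrank ℚ K - finrank ℚ (W d x j)) : ℕ) : ℝ) / (n * (c * p : ℕ)) := by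
      push_cast
      rw [mul_div_assoc', div_le_div_iff₀ (by positivity) (by positivity)]
      push_cast at h6
      have h10 : (0 : ℝ) ≤ n * (c * p) := by positivity
      nlinarith [mul_le_mul_of_nonneg_right h6 h10]
    push_cast
    linarith
  have h8 := (Finset.sum_le_sum h7).trans (h4.trans h5)
  have h9 : ∑ p ∈ Q, Real.log p * (2 * (finrank ℚ K * ((D : ℝ) / (2 * n * (c * p)) - Fintype.card σ))) =
      2 * finrank ℚ K * ∑ p ∈ Q, Real.log p * ((D : ℝ) / (2 * n * (c * p)) - Fintype.card σ) := by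
    rw [Finset.mul_sum]
    exact Finset.sum_congr rfl fun p _ => by ring
  rw [h9] at h8
  have h10 : 2 * (finrank ℚ K : ℝ) * ∑ p ∈ Q, Real.log p * ((D : ℝ) / (2 * n * (c * p)) - Fintype.card σ) ≤
      2 * finrank ℚ K * (Real.log (finrank ℚ K) + D * (Fintype.card σ * H)) := by
    refine h8.trans (le_of_eq ?_)
    ring
  exact le_of_mul_le_mul_left h10 (by positivity)

end Pool.Agent.H446.AP5
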