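import Pool.Agent.H446.AP5.Filt

/-!
# Leading forms
-/

set_option autoImplicit false

namespace Pool.Agent.H446.AP5

open Finset MvPolynomial

variable {σ : Type*} [Fintype σ] {R : Type*} [CommRing R]

/-- All monomials have weight at most `w`. -/
def LeW (d : σ → ℕ) (w : ℕ) (f : MvPolynomial σ R) : Prop := ∀ a, f.coeff a ≠ 0 → wt d a ≤ w

/-- All monomials have weight less than `w`. -/
def LtW (d : σ → ℕ) (w : ℕ) (f : MvPolynomial σ R) : Prop := ∀ a, f.coeff a ≠ 0 → wt d a < w

lemma LtW.le {d : σ → ℕ} {w : ℕ} {f : MvPolynomial σ R} (h : LtW d w f) : LeW d w f := fun a ha => (h a ha).le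

lemma leW_add {d : σ → ℕ} {w : ℕ} {f g : MvPolynomial σ R} (hf : LeW d w f) (hg : LeW d w g) : LeW d w (f + g) := by
  intro a ha
  by_contra hcon
  apply ha
  rw [coeff_add]
  have h1 : f.coeff a = 0 := by
    by_contra h
    exact hcon (hf a h)
  have h2 : g.coeff a = 0 := by
    by_contra h
    exact hcon (hg a h)
  rw [h1, h2, add_zero]

lemma ltW_add {d : σ → ℕ} {w : ℕ} {f g : MvPolynomial σ R} (hf : LtW d w f) (hg : LtW d w g) : LtW d w (f + g) := by
  intro a ha
  by_contra hcon
  apply ha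
  rw [coeff_add]
  have h1 : f.coeff a = 0 := by
    by_contra h
    exact hcon (hf a h)
  have h2 : g.coeff a = 0 := by
    by_contra h
    exact hcon (hg a h)
  rw [h1, h2, add_zero]

lemma leW_mul {d : σ → ℕ} {u v : ℕ} {f g : MvPolynomial σ R} (hf : LeW d u f) (hg : LeW d v g) :
    LeW d (u + v) (f * g) := by
  classical
  intro a ha
  rw [coeff_mul] at ha
  obtain ⟨x, hx, hx0⟩ := Finset.exists_ne_zero_of_sum_ne_zero ha
  rw [HasAntidiagonal.mem_antidiagonal] at hx
  have h1 := hf _ (left_ne_zero_of_mul hx0)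
  have h2 := hg _ (right_ne_zero_of_mul hx0)
  rw [← hx, wt_add]
  omega

lemma ltW_mul {d : σ → ℕ} {u v : ℕ} {f g : MvPolynomial σ R} (hf : LeW d u f) (hg : LtW d v g) :
    LtW d (u + v) (f * g) := by
  classical
  intro a ha
  rw [coeff_mul] at ha
  obtain ⟨x, hx, hx0⟩ := Finset.exists_ne_zero_of_sum_ne_zero ha
  rw [HasAntidiagonal.mem_antidiagonal] at hx
  have h1 := hf _ (left_ne_zero_of_mul hx0)
  have h2 := hg _ (right_ne_zero_of_mul hx0)
  rw [← hx, wt_add]
  omega

/-- `g` has degree at most `w` and `f - g` has degree less than `w`. -/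
def Lead (d : σ → ℕ) (w : ℕ) (f g : MvPolynomial σ R) : Prop := LeW d w g ∧ LtW d w (f - g)

lemma Lead.leW {d : σ → ℕ} {w : ℕ} {f g : MvPolynomial σ R} (h : Lead d w f g) : LeW d w f := by
  have h1 := leW_add h.1 h.2.le
  rwa [add_sub_cancel] at h1

lemma Lead.mul {d : σ → ℕ} {u v : ℕ} {f g f' g' : MvPolynomial σ R} (h : Lead d u f g) (h' : Lead d v f' g') :
    Lead d (u + v) (f * f') (g * g') := by
  refine ⟨leW_mul h.1 h'.1, ?_⟩
  have h1 : f * f' - g * g' = f * (f' - g') + g' * (f - g) := by ring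
  rw [h1]
  refine ltW_add (ltW_mul h.leW h'.2) ?_
  have := ltW_mul h'.1 h.2
  rwa [add_comm v u] at this

lemma lead_one (d : σ → ℕ) : Lead d 0 (1 : MvPolynomial σ R) 1 := by
  classical
  refine ⟨?_, ?_⟩
  · intro a ha
    rw [coeff_one] at ha
    split_ifs at ha with h
    · rw [← h, wt_zero]
    · exact absurd rfl ha
  · rw [sub_self]
    intro a ha
    exact absurd (coeff_zero a) ha

lemma Lead.pow {d : σ → ℕ} {u : ℕ} {f g : MvPolynomial σ R} (h : Lead d u f g) (k : ℕ) :
    Lead d (k * u) (f ^ k) (g ^ k) := by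
  induction k with
  | zero =>
    rw [zero_mul, pow_zero, pow_zero]
    exact lead_one d
  | succ k ih =>
    rw [pow_succ, pow_succ, add_mul, one_mul]
    exact ih.mul h

lemma Lead.prod {d : σ → ℕ} {ι : Type*} (s : Finset ι) {u : ι → ℕ} {f g : ι → MvPolynomial σ R}
    (h : ∀ i ∈ s, Lead d (u i) (f i) (g i)) : Lead d (∑ i ∈ s, u i) (∏ i ∈ s, f i) (∏ i ∈ s, g i) := by
  classical
  induction s using Finset.induction_on with
  | empty => exact lead_one d
  | insert a s ha ih =>
    rw [sum_insert ha, prod_insert ha, prod_insert ha]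
    exact (h a (mem_insert_self _ _)).mul (ih fun i hi => h i (mem_insert_of_mem hi))

lemma lead_X (d : σ → ℕ) (i : σ) : Lead d (d i) (X i : MvPolynomial σ R) (X i) := by
  classical
  refine ⟨?_, ?_⟩
  · intro a ha
    rw [coeff_X] at ha
    split_ifs at ha with h
    · rw [← h]
      unfold wt
      rw [Finset.sum_eq_single i]
      · rw [Finsupp.single_eq_same, one_mul]
      · intro j _ hj
        rw [Finsupp.single_eq_of_ne hj, zero_mul]
      · intro h
        exact absurd (mem_univ i) h
    · exact absurd rfl ha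
  · rw [sub_self]
    intro a ha
    exact absurd (coeff_zero a) ha

/-- The products of powers of the `F i` and of the variables. -/
noncomputable def GG (F : σ → MvPolynomial σ R) (q : ℕ) (b : σ →₀ ℕ) : MvPolynomial σ R :=
  ∏ i, (F i ^ (b i / q) * X i ^ (b i % q))

lemma monomial_eq_prod (b : σ →₀ ℕ) : (monomial b (1 : R)) = ∏ i, (X i : MvPolynomial σ R) ^ b i := by
  rw [monomial_eq, C_1, one_mul, Finsupp.prod_fintype]
  intro i
  rw [pow_zero]

lemma lead_GG {d : σ → ℕ} {q : ℕ} {F : σ → MvPolynomial σ R}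
    (hF : ∀ i, Lead d (q * d i) (F i) (X i ^ q)) (b : σ →₀ ℕ) : Lead d (wt d b) (GG F q b) (monomial b 1) := by
  have h1 : Lead d (∑ i, ((b i / q) * (q * d i) + (b i % q) * d i)) (GG F q b)
      (∏ i, ((X i ^ q) ^ (b i / q) * X i ^ (b i % q))) :=
    Lead.prod _ fun i _ => ((hF i).pow _).mul ((lead_X d i).pow _)
  have h2 : ∑ i, ((b i / q) * (q * d i) + (b i % q) * d i) = wt d b := by
    unfold wt
    refine Finset.sum_congr rfl fun i _ => ?_
    have h3 := Nat.div_add_mod (b i) q
    calc (b i / q) * (q * d i) + (b i % q) * d i = (q * (b i / q) + b i % q) * d i := by ring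
      _ = _ := by rw [h3]
  have h3 : (∏ i, (((X i : MvPolynomial σ R) ^ q) ^ (b i / q) * X i ^ (b i % q))) = monomial b 1 := by
    rw [monomial_eq_prod]
    refine Finset.prod_congr rfl fun i _ => ?_
    rw [← pow_mul, ← pow_add, Nat.div_add_mod]
  rw [h2, h3] at h1
  exact h1

/-- The polynomials of degree at most `w` are combinations of the products. -/
theorem mem_span_GG {d : σ → ℕ} {q : ℕ} {F : σ → MvPolynomial σ R}
    (hF : ∀ i, Lead d (q * d i) (F i) (X i ^ q)) : ∀ (w : ℕ) (f : MvPolynomial σ R), LeW d w f →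
      f ∈ Submodule.span R {g | ∃ b, wt d b ≤ w ∧ g = GG F q b} := by
  intro w
  induction w using Nat.strong_induction_on with
  | _ w ih =>
    intro f hf
    rw [f.as_sum]
    refine Submodule.sum_mem _ fun b hb => ?_
    have hb' : wt d b ≤ w := hf b (by rwa [mem_support_iff] at hb)
    have h1 : monomial b (f.coeff b) = f.coeff b • (GG F q b - (GG F q b - monomial b 1)) := by
      rw [sub_sub_cancel, smul_monomial, smul_eq_mul, mul_one]
    rw [h1]
    refine Submodule.smul_mem _ _ (Submodule.sub_mem _ (Submodule.subset_span ⟨b, hb', rfl⟩) ?_)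
    have h2 := (lead_GG hF b).2
    rcases Nat.eq_zero_or_pos w with h0 | h0
    · have h3 : GG F q b - monomial b 1 = 0 := by
        ext a
        rw [coeff_zero]
        by_contra h4
        have := h2 a h4
        omega
      rw [h3]
      exact Submodule.zero_mem _
    · have h3 : LeW d (w - 1) (GG F q b - monomial b 1) := fun a ha => by
        have := h2 a ha
        omega
      have h4 := ih (w - 1) (by omega) _ h3
      refine Submodule.span_mono ?_ h4
      rintro g ⟨b', hb', rfl⟩
      exact ⟨b', by omega, rfl⟩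

end Pool.Agent.H446.AP5
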