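import Pool.Agent.H446.AP5.CurvN

/-!
# Polynomials with given leading forms that vanish modulo `p` at the nilpotent operators
-/

set_option autoImplicit false

namespace Pool.Agent.H446.AP5

open Finset MvPolynomial
open Pool.Agent.H446.AP4 (Sup topc mapc coeff_mapc curv curv_succ curv_sup curv_top comp comp_pow map_comp' map_curv
  topc_natCast topc_zero topc_mul topc_sum topc_add sup_zero sup_C sup_mapc topc_eq_zero)

variable {n : ℕ} {κ : Fin n → Type*} [∀ j, Fintype (κ j)]

/-- The weights of the variables. -/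
def dw (s : Σ j, κ j) : ℕ := n - s.1

omit [∀ j, Fintype (κ j)] in
lemma dw_pos (s : Σ j, κ j) : 1 ≤ dw s := by
  unfold dw
  have := s.1.2
  omega

omit [∀ j, Fintype (κ j)] in
lemma dw_le (s : Σ j, κ j) : dw s ≤ n := Nat.sub_le _ _

section generic

variable {O : Type*} [CommRing O]

/-- The linear part of the coefficients. -/
noncomputable def lin (g : (j : Fin n) → κ j → O) (j : Fin n) : MvPolynomial (Σ j, κ j) O :=
  ∑ k, C (g j k) * X ⟨j, k⟩

/-- The coefficients of the generic operator. -/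
noncomputable def co (b : Fin n → O) (g : (j : Fin n) → κ j → O) (j : Fin n) : MvPolynomial (Σ j, κ j) O :=
  C (b j) + lin g j

lemma sc_X {σ : Type*} (d : σ → ℕ) (s : σ) : sc d (X s : MvPolynomial σ O) = Polynomial.monomial (d s) (X s) := by
  unfold sc
  rw [eval₂Hom_X']

lemma sc_co (b : Fin n → O) (g : (j : Fin n) → κ j → O) (j : Fin n) :
    sc dw (co b g j) = Polynomial.C (C (b j)) + Polynomial.monomial (n - j) (lin g j) := by
  unfold co lin
  rw [map_add, sc_C, map_sum, map_sum]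
  congr 1
  refine Finset.sum_congr rfl fun k _ => ?_
  rw [map_mul, sc_C, sc_X, Polynomial.C_mul_monomial]
  rfl

/-- The curvature of the generic operator. -/
noncomputable def cur (p : ℕ) (δ : O → O) (Δ : O) (b : Fin n → O) (g : (j : Fin n) → κ j → O) :
    Matrix (Fin n) (Fin n) (MvPolynomial (Σ j, κ j) O) := curv (mvc δ) (C Δ) (comp (C Δ) (co b g)) p

theorem coeff_charpoly_cur {δ : O → O} (hδ : δ 0 = 0) (Δ : O) (b : Fin n → O) (g : (j : Fin n) → κ j → O) {p : ℕ}
    (j : Fin n) (a : (Σ j, κ j) →₀ ℕ)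
    (h : ((cur p δ Δ b g).charpoly.coeff j).coeff a ≠ 0 ∨ wt dw a = p * (n - j)) :
    wt dw a ≤ p * (n - j) ∧ (wt dw a = p * (n - j) → ((cur p δ Δ b g).charpoly.coeff j).coeff a =
      (((comp (C Δ) (lin g)) ^ p).charpoly.coeff j).coeff a) := by
  classical
  have h0 : (mvc δ : MvPolynomial (Σ j, κ j) O → MvPolynomial (Σ j, κ j) O) 0 = 0 := by
    ext a
    rw [coeff_mvc hδ, coeff_zero, hδ]
  let w : Fin n → ℝ := fun i => ((i : ℕ) : ℝ)
  set B : Matrix (Fin n) (Fin n) (Polynomial (MvPolynomial (Σ j, κ j) O)) := comp (Polynomial.C (C Δ)) fun j : Fin n =>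
    Polynomial.C (C (b j)) + Polynomial.monomial (n - j) (lin g j) with hB
  have hM : (cur p δ Δ b g).map (sc dw) = curv (mapc (mvc δ)) (Polynomial.C (C Δ)) B p := by
    unfold cur
    rw [map_curv (sc dw) (fun r => sc_mvc dw hδ r), map_comp', sc_C]
    congr 2
    funext j
    exact sc_co b g j
  have hΔ : Sup (0 : ℝ) (Polynomial.C (C Δ : MvPolynomial (Σ j, κ j) O)) := sup_C _
  have hcoef : ∀ j : Fin n, Sup ((n : ℝ) - j)
      (Polynomial.C (C (b j)) + Polynomial.monomial (n - j) (lin g j) : Polynomial (MvPolynomial (Σ j, κ j) O)) ∧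
      topc ((n : ℝ) - j) (Polynomial.C (C (b j)) + Polynomial.monomial (n - j) (lin g j) :
        Polynomial (MvPolynomial (Σ j, κ j) O)) = lin g j := by
    intro j
    have hj := j.2
    have hcast : (n : ℝ) - j = ((n - j : ℕ) : ℝ) := by
      rw [Nat.cast_sub hj.le]
    rw [hcast]
    refine ⟨fun k hk => ?_, ?_⟩
    · rw [Polynomial.coeff_add, Polynomial.coeff_C, Polynomial.coeff_monomial] at hk
      by_contra hcon
      push Not at hcon
      have h1 : n - (j : ℕ) < k := by exact_mod_cast hcon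
      rw [if_neg (by omega), if_neg (by omega), add_zero] at hk
      exact hk rfl
    · rw [topc_natCast, Polynomial.coeff_add, Polynomial.coeff_C, Polynomial.coeff_monomial, if_neg (by omega),
        if_pos rfl, zero_add]
  have hBS : ∀ i j, Sup (0 + 1 * (1 + w i - w j)) (B i j) := by
    intro i j
    rw [hB]
    simp only [comp, Matrix.of_apply, w]
    split_ifs with h1 h2
    · have h3 : ((i : ℕ) : ℝ) + 1 = n := by exact_mod_cast h1
      have h4 : (0 : ℝ) + 1 * (1 + ((i : ℕ) : ℝ) - ((j : ℕ) : ℝ)) = n - j := by linarith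
      rw [h4]
      exact (hcoef j).1
    · have h3 : ((j : ℕ) : ℝ) = (i : ℕ) + 1 := by exact_mod_cast h2
      have h4 : (0 : ℝ) + 1 * (1 + ((i : ℕ) : ℝ) - ((j : ℕ) : ℝ)) = 0 := by rw [h3]; ring
      rw [h4]
      exact hΔ.neg
    · exact sup_zero _
  have hBtop : (Matrix.of fun i j => topc ((0 : ℝ) + 1 * (1 + w i - w j)) (B i j)) = comp (C Δ) (lin g) := by
    ext1 i j
    rw [Matrix.of_apply, hB]
    simp only [comp, Matrix.of_apply, w]
    split_ifs with h1 h2
    · have h3 : ((i : ℕ) : ℝ) + 1 = n := by exact_mod_cast h1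
      have h4 : (0 : ℝ) + 1 * (1 + ((i : ℕ) : ℝ) - ((j : ℕ) : ℝ)) = n - j := by linarith
      rw [h4]
      exact (hcoef j).2
    · have h3 : ((j : ℕ) : ℝ) = (i : ℕ) + 1 := by exact_mod_cast h2
      have h4 : (0 : ℝ) + 1 * (1 + ((i : ℕ) : ℝ) - ((j : ℕ) : ℝ)) = ((0 : ℕ) : ℝ) := by rw [h3]; push_cast; ring
      rw [h4, topc_natCast, Polynomial.coeff_neg, Polynomial.coeff_C_zero]
    · exact topc_zero _
  have hS := curv_sup h0 (δ₀ := 0) (θ := 1) zero_le_one hΔ B w hBS p
  have hT := curv_top h0 (δ₀ := 0) (θ := 1) one_pos hΔ B w hBS p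
  rw [hBtop] at hT
  have hS' : ∀ i j, Sup ((p : ℕ) + w i - w j) (curv (mapc (mvc δ)) (Polynomial.C (C Δ)) B p i j) := by
    intro i j
    have := hS i j
    have h4 : (0 : ℝ) * p + 1 * (p + w i - w j) = p + w i - w j := by ring
    rwa [h4] at this
  have hT' : (Matrix.of fun i j => topc ((p : ℕ) + w i - w j) (curv (mapc (mvc δ)) (Polynomial.C (C Δ)) B p i j)) =
      (comp (C Δ) (lin g)) ^ p := by
    ext1 i j
    rw [Matrix.of_apply, ← hT i j]
    congr 1
    ring
  have hsc : ∀ a, ((cur p δ Δ b g).charpoly.coeff j).coeff a =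
      (((curv (mapc (mvc δ)) (Polynomial.C (C Δ)) B p).charpoly.coeff j).coeff (wt dw a)).coeff a := by
    intro a
    rw [← hM, Matrix.charpoly_map, Polynomial.coeff_map, coeff_sc, if_pos rfl]
  have hj := j.2
  have hnj : p * (j : ℕ) + p * (n - j) = n * p := by
    rw [← mul_add, Nat.add_sub_cancel' hj.le, mul_comm]
  have hch := sup_charpoly hS' j (wt dw a) (by
    rcases h with h | h
    · left
      intro h1
      rw [hsc a, h1, coeff_zero] at h
      exact h rfl
    · right
      rw [h, Fintype.card_fin]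
      exact hnj)
  rw [Fintype.card_fin, hT'] at hch
  refine ⟨by omega, fun he => ?_⟩
  rw [hsc a, hch.2 (by omega)]

end generic

lemma exists_dual {F V ι : Type*} [Field F] [AddCommGroup V] [Module F V] [DecidableEq ι] {v : ι → V}
    (h : LinearIndependent F v) (k : ι) : ∃ φ : V →ₗ[F] F, ∀ k', φ (v k') = if k' = k then 1 else 0 := by
  obtain ⟨g, hg⟩ := LinearMap.exists_leftInverse_of_injective (Finsupp.linearCombination F v)
    (LinearMap.ker_eq_bot.2 h)
  refine ⟨(Finsupp.lapply k).comp g, fun k' => ?_⟩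
  have h1 := LinearMap.congr_fun hg (Finsupp.single k' 1)
  rw [LinearMap.comp_apply, Finsupp.linearCombination_single, one_smul, LinearMap.id_apply] at h1
  rw [LinearMap.comp_apply, h1, Finsupp.lapply_apply, Finsupp.single_apply]

/-- **The polynomials.** -/
theorem local5 {p : ℕ} [hp : Fact p.Prime] {O : Type*} [CommRing O] [Algebra (ZMod p) O] {δ : O → O} (hδ : δ 0 = 0)
    (Δ : O) (b : Fin n → O) (g : (j : Fin n) → κ j → O)
    (hli : ∀ j, LinearIndependent (ZMod p) fun k => (-((-Δ) ^ (n - 1) * g j k)) ^ p)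
    {S V : Type*} [CommRing S] [CommRing V] [CharP V p] (δS : S → S) (ψ : MvPolynomial (Σ j, κ j) O →+* S)
    (hψ : ∀ f, ψ (mvc δ f) = δS (ψ f))
    (hgood : ∀ j : Fin n, (curv δS (ψ (C Δ)) (comp (ψ (C Δ)) fun j => ψ (co b g j)) p).charpoly.coeff j = 0)
    (y : (Σ j, κ j) → V) (hφ : ∀ φ : O →ₗ[ZMod p] ZMod p, ∃ φS : S →+ V, ∀ a o,
      φS (ψ (monomial a o)) = ZMod.castHom (dvd_refl p) V (φ o) * mon y a) (s : Σ j, κ j) :
    ∃ F : MvPolynomial (Σ j, κ j) ℤ, Lead dw (p * dw s) F (X s ^ p) ∧ eval₂ (Int.castRingHom V) y F = 0 := by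
  classical
  obtain ⟨j, k⟩ := s
  have hnt : Nontrivial O := ⟨⟨_, _, (hli j).ne_zero k⟩⟩
  have hch : CharP O p := charP_of_injective_algebraMap (algebraMap (ZMod p) O).injective p
  obtain ⟨φ, hφv⟩ := exists_dual (hli j) k
  obtain ⟨φS, hφS⟩ := hφ φ
  have hφ0 : φ 0 = 0 := map_zero φ
  set v : κ j → O := fun k => (-((-Δ) ^ (n - 1) * g j k)) ^ p with hv
  -- the polynomial over `O`
  set h : MvPolynomial (Σ j, κ j) O := C ((-Δ) ^ (p * (j : ℕ))) * (cur p δ Δ b g).charpoly.coeff j with hh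
  have hψh : ψ h = 0 := by
    rw [hh, map_mul]
    have h1 : ψ ((cur p δ Δ b g).charpoly.coeff j) = 0 := by
      rw [← hgood j]
      have h2 : (cur p δ Δ b g).map ψ = curv δS (ψ (C Δ)) (comp (ψ (C Δ)) fun j => ψ (co b g j)) p := by
        unfold cur
        rw [map_curv ψ hψ, map_comp']
      rw [← h2, Matrix.charpoly_map, Polynomial.coeff_map]
    rw [h1, mul_zero]
  have hcoe : ∀ a, h.coeff a = (-Δ) ^ (p * (j : ℕ)) * ((cur p δ Δ b g).charpoly.coeff j).coeff a := fun a => by
    rw [hh, coeff_C_mul]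
  have hle : ∀ a, h.coeff a ≠ 0 → wt dw a ≤ p * (n - j) := by
    intro a ha
    rw [hcoe] at ha
    exact (coeff_charpoly_cur hδ Δ b g j a (Or.inl (right_ne_zero_of_mul ha))).1
  have hpow : (-((-C Δ) ^ (n - 1) * lin g j)) ^ p = ∑ k, C (v k) * (X ⟨j, k⟩ : MvPolynomial (Σ j, κ j) O) ^ p := by
    unfold lin
    rw [Finset.mul_sum, ← Finset.sum_neg_distrib, sum_pow_char]
    refine Finset.sum_congr rfl fun k _ => ?_
    rw [hv, C_pow, ← mul_pow]
    congr 1
    rw [C_neg, C_mul, C_pow, C_neg]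
    ring
  have htop : ∀ a, wt dw a = p * (n - j) → h.coeff a =
      (∑ k, C (v k) * (X ⟨j, k⟩ : MvPolynomial (Σ j, κ j) O) ^ p).coeff a := by
    intro a ha
    rw [hcoe, (coeff_charpoly_cur hδ Δ b g j a (Or.inr ha)).2 ha, ← coeff_C_mul, coeff_charpoly_pow, ← hpow,
      ← charpoly_comp (C Δ : MvPolynomial (Σ j, κ j) O) (lin g) j, mul_pow, ← pow_mul]
    congr 1
    rw [C_pow, C_neg, mul_comm p]
    ring
  -- the polynomial over the prime field
  set f : MvPolynomial (Σ j, κ j) (ZMod p) := mvc φ h with hf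
  have hXp : LeW dw (p * (n - j)) ((X ⟨j, k⟩ : MvPolynomial (Σ j, κ j) (ZMod p)) ^ p) :=
    ((lead_X (R := ZMod p) dw (⟨j, k⟩ : Σ j, κ j)).pow p).1
  have hlt : LtW dw (p * (n - j)) (f - X ⟨j, k⟩ ^ p) := by
    intro a ha
    rw [coeff_sub, hf, coeff_mvc hφ0] at ha
    rcases lt_trichotomy (wt dw a) (p * (n - j)) with h1 | h1 | h1
    · exact h1
    · exfalso
      apply ha
      rw [htop a h1, coeff_sum, map_sum, Finset.sum_eq_single k]
      · rw [coeff_C_mul, coeff_X_pow, coeff_X_pow]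
        split_ifs
        · rw [mul_one, hφv k, if_pos rfl, sub_self]
        · rw [mul_zero, map_zero, sub_self]
      · intro k' _ hk'
        rw [coeff_C_mul, coeff_X_pow]
        split_ifs
        · rw [mul_one, hφv k', if_neg hk']
        · rw [mul_zero, map_zero]
      · intro h
        exact absurd (mem_univ k) h
    · exfalso
      apply ha
      have h2 : h.coeff a = 0 := by
        by_contra h2
        have := hle a h2
        omega
      have h3 : ((X ⟨j, k⟩ : MvPolynomial (Σ j, κ j) (ZMod p)) ^ p).coeff a = 0 := by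
        by_contra h3
        have := hXp a h3
        omega
      rw [h2, h3, map_zero, sub_zero]
  -- the polynomial over the integers
  have hval0 : (fun c : ZMod p => (c.val : ℤ)) 0 = 0 := by simp
  refine ⟨X ⟨j, k⟩ ^ p + mvc (fun c : ZMod p => (c.val : ℤ)) (f - X ⟨j, k⟩ ^ p), ⟨?_, ?_⟩, ?_⟩
  · exact ((lead_X (R := ℤ) dw (⟨j, k⟩ : Σ j, κ j)).pow p).1
  · rw [add_sub_cancel_left]
    intro a ha
    rw [coeff_mvc hval0] at ha
    exact hlt a fun h0 => ha (by rw [h0]; simp)
  · have h1 : MvPolynomial.map (Int.castRingHom (ZMod p))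
        (X ⟨j, k⟩ ^ p + mvc (fun c : ZMod p => (c.val : ℤ)) (f - X ⟨j, k⟩ ^ p)) = f := by
      have h2 : MvPolynomial.map (Int.castRingHom (ZMod p)) (mvc (fun c : ZMod p => (c.val : ℤ))
          (f - X ⟨j, k⟩ ^ p)) = f - X ⟨j, k⟩ ^ p := by
        ext a
        rw [coeff_map, coeff_mvc hval0, eq_intCast, Int.cast_natCast, ZMod.natCast_val, ZMod.cast_id]
      rw [map_add, map_pow, map_X, h2, add_sub_cancel]
    have h3 : Int.castRingHom V = (ZMod.castHom (dvd_refl p) V).comp (Int.castRingHom (ZMod p)) :=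
      RingHom.ext_int _ _
    rw [h3, ← eval₂_map, h1]
    have h4 : eval₂ (ZMod.castHom (dvd_refl p) V) y f = φS (ψ h) := by
      have h5 : φS (ψ h) = ∑ a ∈ h.support, ZMod.castHom (dvd_refl p) V (φ (h.coeff a)) * mon y a := by
        conv_lhs => rw [h.as_sum]
        rw [map_sum, map_sum]
        exact Finset.sum_congr rfl fun a _ => hφS a _
      have h6 : f = ∑ a ∈ h.support, monomial a (φ (h.coeff a)) := rfl
      rw [h5, h6, eval₂_sum]
      refine Finset.sum_congr rfl fun a _ => ?_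
      rw [eval₂_monomial, Finsupp.prod_fintype _ _ (fun i => pow_zero _)]
      rfl
    rw [h4, hψh, map_zero]

end Pool.Agent.H446.AP5
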